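import Pool.Agent.Q280.MD.Der

/-!
# Algebraic independence over a field of complex numbers
-/

set_option autoImplicit false

open Matroid Set Q241.SX

namespace Pool.Agent.Q280.MD

/-- the matroid of algebraic independence over the field generated by `Y` -/
noncomputable abbrev MO (Y : Set ℂ) : Matroid ℂ :=
  AlgebraicIndependent.matroid (IntermediateField.adjoin ℚ Y) ℂ

theorem mem_MO {Y Z : Set ℂ} {a : ℂ} : a ∈ (MO Y).closure Z ↔
    IsAlgebraic (Algebra.adjoin (IntermediateField.adjoin ℚ Y) Z) a := by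
  rw [AlgebraicIndependent.matroid_closure_eq]
  rfl

theorem cl_poly' {X : Set ℂ} {a : ℂ} (p : Polynomial ℂ) (hp : p ≠ 0) (hc : ∀ i, p.coeff i ∈ M.closure X)
    (h0 : p.eval a = 0) : a ∈ M.closure X := by
  have h1 : a ∈ M.closure (M.closure X) := by
    rw [mem_cl]
    obtain ⟨q, hq⟩ : ∃ q : Polynomial (Algebra.adjoin ℚ (M.closure X)),
        q.map (algebraMap _ ℂ) = p := by
      have : p ∈ Polynomial.lifts (algebraMap (Algebra.adjoin ℚ (M.closure X)) ℂ) := by
        rw [Polynomial.lifts_iff_coeff_lifts]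
        intro n
        exact ⟨⟨p.coeff n, Algebra.subset_adjoin (hc n)⟩, rfl⟩
      exact (Polynomial.mem_lifts _).mp this
    refine ⟨q, ?_, ?_⟩
    · rintro rfl
      exact hp (by rw [← hq, Polynomial.map_zero])
    · rw [Polynomial.aeval_def, ← Polynomial.eval_map, hq]
      exact h0
  rwa [M.closure_closure] at h1

theorem adjoin_cl {Y Z : Set ℂ} {y : ℂ} (hy : y ∈ Algebra.adjoin (IntermediateField.adjoin ℚ Y) Z) :
    y ∈ M.closure (Y ∪ Z) := by
  induction hy using Algebra.adjoin_induction with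
  | mem y hy => exact subset_cl _ (Or.inr hy)
  | algebraMap n => exact cl_mono subset_union_left (adjoin_sub Y n.2)
  | add _ _ h1 h2 h3 h4 => exact cl_add h3 h4
  | mul _ _ h1 h2 h3 h4 => exact cl_mul h3 h4

theorem adjoin_le {Y Z : Set ℂ} {y : ℂ} (hy : y ∈ Algebra.adjoin ℚ (Y ∪ Z)) :
    y ∈ Algebra.adjoin (IntermediateField.adjoin ℚ Y) Z := by
  induction hy using Algebra.adjoin_induction with
  | mem y hy =>
    rcases hy with hy | hy
    · exact (Algebra.adjoin (IntermediateField.adjoin ℚ Y) Z).algebraMap_mem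
        ⟨y, IntermediateField.subset_adjoin _ _ hy⟩
    · exact Algebra.subset_adjoin hy
  | algebraMap n =>
    exact (Algebra.adjoin (IntermediateField.adjoin ℚ Y) Z).algebraMap_mem (algebraMap ℚ _ n)
  | add _ _ _ _ h1 h2 => exact add_mem h1 h2
  | mul _ _ _ _ h1 h2 => exact mul_mem h1 h2

theorem cl_of_MO {Y Z : Set ℂ} {a : ℂ} (h : a ∈ (MO Y).closure Z) : a ∈ M.closure (Y ∪ Z) := by
  rw [mem_MO] at h
  obtain ⟨p, hp0, hp⟩ := h
  refine cl_poly' (p.map (algebraMap _ ℂ)) ?_ (fun i => ?_) ?_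
  · exact (Polynomial.map_ne_zero_iff (FaithfulSMul.algebraMap_injective _ _)).mpr hp0
  · rw [Polynomial.coeff_map]
    exact adjoin_cl (p.coeff i).2
  · rw [Polynomial.eval_map]
    exact hp

theorem MO_of_cl {Y Z : Set ℂ} {a : ℂ} (h : a ∈ M.closure (Y ∪ Z)) : a ∈ (MO Y).closure Z := by
  rw [mem_MO]
  rw [mem_cl] at h
  obtain ⟨p, hp0, hp⟩ := h
  have hp0' : p.map (algebraMap _ ℂ) ≠ 0 :=
    (Polynomial.map_ne_zero_iff (FaithfulSMul.algebraMap_injective _ _)).mpr hp0
  obtain ⟨q, hq⟩ : ∃ q : Polynomial (Algebra.adjoin (IntermediateField.adjoin ℚ Y) Z),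
      q.map (algebraMap _ ℂ) = p.map (algebraMap _ ℂ) := by
    have : p.map (algebraMap _ ℂ) ∈
        Polynomial.lifts (algebraMap (Algebra.adjoin (IntermediateField.adjoin ℚ Y) Z) ℂ) := by
      rw [Polynomial.lifts_iff_coeff_lifts]
      intro n
      rw [Polynomial.coeff_map]
      exact ⟨⟨_, adjoin_le (p.coeff n).2⟩, rfl⟩
    exact (Polynomial.mem_lifts _).mp this
  refine ⟨q, ?_, ?_⟩
  · rintro rfl
    exact hp0' (by rw [← hq, Polynomial.map_zero])
  · rw [Polynomial.aeval_def, ← Polynomial.eval_map, hq, Polynomial.eval_map]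
    exact hp

theorem mem_MO_iff {Y Z : Set ℂ} {a : ℂ} : a ∈ (MO Y).closure Z ↔ a ∈ M.closure (Y ∪ Z) :=
  ⟨cl_of_MO, MO_of_cl⟩

/-- **A dependent family has a member which depends on the others.** -/
theorem exists_dep {ι : Type*} {Y : Set ℂ} (v : ι → ℂ)
    (h : ¬ AlgebraicIndependent (IntermediateField.adjoin ℚ Y) v) :
    ∃ i, v i ∈ M.closure (Y ∪ v '' {i}ᶜ) := by
  by_contra hcon
  push Not at hcon
  apply h
  have hinj : Function.Injective v := by
    intro i k hik
    by_contra hne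
    exact hcon i (subset_cl _ (Or.inr ⟨k, fun h => hne h.symm, hik.symm⟩))
  have h1 : (MO Y).Indep (range v) := by
    rw [indep_iff_forall_notMem_closure_sdiff (by simp)]
    rintro _ ⟨i, rfl⟩ h2
    rw [mem_MO_iff] at h2
    refine hcon i (cl_mono (union_subset_union_right _ ?_) h2)
    rintro _ ⟨⟨k, rfl⟩, hk⟩
    exact ⟨k, fun h => hk (by rw [h]; rfl), rfl⟩
  rw [AlgebraicIndependent.matroid_indep_iff] at h1
  have h2 : AlgebraicIndependent (IntermediateField.adjoin ℚ Y) (fun x : range v => (x : ℂ)) := h1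
  exact h2.comp (rangeFactorization v) (rangeFactorization_injective.mpr hinj)

theorem notMem_of_indep {ι : Type*} {Y : Set ℂ} {v : ι → ℂ}
    (h : AlgebraicIndependent (IntermediateField.adjoin ℚ Y) v) (i : ι) :
    v i ∉ M.closure (Y ∪ v '' {i}ᶜ) := by
  rw [← mem_MO_iff, mem_MO]
  exact h.transcendental_adjoin (by simp)

theorem rank_of_indep {Y : Set ℂ} {T : Set ℂ} (hT : T ⊆ M.closure Y) : ∀ (m : ℕ) (w : Fin m → ℂ),
    AlgebraicIndependent (IntermediateField.adjoin ℚ Y) w → M.eRk T + m ≤ M.eRk (T ∪ range w) := by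
  intro m
  induction m with
  | zero =>
    intro w _
    simp
  | succ m ih =>
    intro w hw
    have h1 := ih (w ∘ Fin.castSucc) (hw.comp _ (Fin.castSucc_injective m))
    have h2 := notMem_of_indep hw (Fin.last m)
    have h3 : T ∪ range w = insert (w (Fin.last m)) (T ∪ range (w ∘ Fin.castSucc)) := by
      ext x
      simp only [mem_union, mem_range, mem_insert_iff, Function.comp]
      constructor
      · rintro (h | ⟨i, rfl⟩)
        · exact Or.inr (Or.inl h)
        · induction i using Fin.lastCases with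
          | last => exact Or.inl rfl
          | cast i => exact Or.inr (Or.inr ⟨i, rfl⟩)
      · rintro (h | h | ⟨i, rfl⟩)
        · exact Or.inr ⟨_, h.symm⟩
        · exact Or.inl h
        · exact Or.inr ⟨_, rfl⟩
    have h4 : w (Fin.last m) ∉ M.closure (T ∪ range (w ∘ Fin.castSucc)) := by
      intro h
      apply h2
      refine cl_sub (union_subset (hT.trans (cl_mono subset_union_left)) ?_) h
      rintro _ ⟨i, rfl⟩
      refine subset_cl _ (Or.inr ⟨Fin.castSucc i, ?_, rfl⟩)
      exact (Fin.castSucc_lt_last i).ne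
    rw [h3, M.eRk_insert_eq_add_one ⟨mem_univ _, h4⟩]
    push_cast
    rw [← add_assoc]
    exact add_le_add h1 le_rfl

theorem exists_of_le_eRk_MO {n : ℕ} {X Y : Set ℂ} (h : (n : ℕ∞) ≤ (MO Y).eRk X) :
    ∃ w : Fin n → ℂ, (∀ i, w i ∈ X) ∧ AlgebraicIndependent (IntermediateField.adjoin ℚ Y) w := by
  obtain ⟨I, hI, hind, hcard⟩ := (MO Y).le_eRk_iff.mp h
  have hfin : I.Finite := finite_of_encard_eq_coe hcard
  have : Fintype I := hfin.fintype
  have hc : Fintype.card I = n := by
    have h1 : I.encard = Fintype.card I := by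
      rw [← Set.coe_fintypeCard]
    rw [hcard] at h1
    exact_mod_cast h1.symm
  let e : Fin n ≃ I := (finCongr hc.symm).trans (Fintype.equivFin I).symm
  refine ⟨fun i => (e i : ℂ), fun i => hI (e i).2, ?_⟩
  rw [AlgebraicIndependent.matroid_indep_iff] at hind
  have h2 : AlgebraicIndependent (IntermediateField.adjoin ℚ Y) (fun x : I => (x : ℂ)) := hind
  exact h2.comp e e.injective

/-- **Independent families over a field from inequalities over finite sets.** -/
theorem exists_family_over {Y P : Set ℂ} (hP : P.Finite) {m : ℕ}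
    (h : ∀ T : Set ℂ, T.Finite → T ⊆ Y → ∃ T', T ⊆ T' ∧ T' ⊆ M.closure Y ∧ M.eRk T' ≠ ⊤ ∧ M.eRk T' + m ≤ M.eRk (P ∪ T')) :
    ∃ w : Fin m → ℂ, (∀ k, w k ∈ P) ∧ AlgebraicIndependent (IntermediateField.adjoin ℚ Y) w := by
  apply exists_of_le_eRk_MO
  by_contra hcon
  push Not at hcon
  obtain ⟨B, hB⟩ := (MO Y).exists_isBasis P
  rw [← hB.encard_eq_eRk] at hcon
  have h1 : P ⊆ M.closure (Y ∪ B) := fun x hx => mem_MO_iff.mp (hB.subset_closure hx)
  obtain ⟨I, hI1, hI2, _, hI3⟩ := exists_subset_finite_closure_of_subset_closure hP h1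
  obtain ⟨T', h2, _, h3, h4⟩ := h (I ∩ Y) (hI2.subset inter_subset_left) inter_subset_right
  have h5 : P ∪ T' ⊆ M.closure (T' ∪ B) := by
    refine union_subset (hI3.trans (cl_mono ?_)) ((subset_union_left).trans (subset_cl _))
    intro x hx
    rcases hI1 hx with hx' | hx'
    · exact Or.inl (h2 ⟨hx, hx'⟩)
    · exact Or.inr hx'
  have h6 : M.eRk (P ∪ T') ≤ M.eRk T' + B.encard := by
    calc M.eRk (P ∪ T') ≤ M.eRk (M.closure (T' ∪ B)) := M.eRk_mono h5
      _ = M.eRk (T' ∪ B) := M.eRk_closure_eq _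
      _ ≤ M.eRk T' + M.eRk B := M.eRk_union_le_eRk_add_eRk _ _
      _ ≤ M.eRk T' + B.encard := add_le_add le_rfl (M.eRk_le_encard _)
  have h7 := h4.trans h6
  rw [ENat.add_le_add_iff_left h3] at h7
  exact absurd (h7.trans_lt hcon) (lt_irrefl _)

end Pool.Agent.Q280.MD
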