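import Pool.Agent.Q280.MD.SysD
import Pool.Agent.Q280.MD.Over

/-!
# Conversions between the forms of the definitions
-/

set_option autoImplicit false

open Matroid Set Q241.SX Filter Topology

namespace Pool.Agent.Q280.MD

open Pool.Agent.TH21.MS (jj jj_an E4 E6 E4_eq E6_eq disc_ne)
open Pool.Agent.Q280.MS (CM Equivalent den_ne equivalent_refl)

theorem cm_iff_quad {z : ℂ} (hz : 0 < z.im) : CM z ↔
    ∃ a b c : ℤ, a ≠ 0 ∧ (a : ℂ) * z ^ 2 + (b : ℂ) * z + (c : ℂ) = 0 := by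
  constructor
  · intro h
    obtain ⟨a, b, c, ha, _, h1⟩ := CM_data hz h
    exact ⟨a, b, c, ha, h1⟩
  · rintro ⟨a, b, c, ha, h1⟩
    exact ⟨a, b, c, Or.inl ha, h1⟩

theorem equivalent_iff_div {z w : ℂ} (hz : 0 < z.im) : Equivalent z w ↔
    ∃ a b c d : ℚ, 0 < a * d - b * c ∧ w = ((a : ℂ) * z + (b : ℂ)) / ((c : ℂ) * z + (d : ℂ)) := by
  constructor
  · rintro ⟨a, b, c, d, h1, h2⟩
    exact ⟨a, b, c, d, h1, by rw [eq_div_iff (den_ne hz h1), h2]⟩
  · rintro ⟨a, b, c, d, h1, h2⟩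
    exact ⟨a, b, c, d, h1, by rw [h2, div_mul_cancel₀ _ (den_ne hz h1)]⟩

/-- every orbit is dense -/
theorem exists_equivalent_in {U : Set ℂ} (hU : IsOpen U) {u : ℂ} (hu : u ∈ U) (hu0 : 0 < u.im) {z : ℂ}
    (hz : 0 < z.im) : ∃ w ∈ U, 0 < w.im ∧ Equivalent z w := by
  have hcont : Continuous fun p : ℝ × ℝ => (p.1 : ℂ) * z + (p.2 : ℂ) := by fun_prop
  have hopen : IsOpen ({p : ℝ × ℝ | 0 < p.1} ∩ (fun p : ℝ × ℝ => (p.1 : ℂ) * z + (p.2 : ℂ)) ⁻¹' U) :=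
    (isOpen_lt continuous_const continuous_fst).inter (hU.preimage hcont)
  have hne : ({p : ℝ × ℝ | 0 < p.1} ∩ (fun p : ℝ × ℝ => (p.1 : ℂ) * z + (p.2 : ℂ)) ⁻¹' U).Nonempty := by
    refine ⟨(u.im / z.im, u.re - u.im / z.im * z.re), div_pos hu0 hz, ?_⟩
    show ((u.im / z.im : ℝ) : ℂ) * z + ((u.re - u.im / z.im * z.re : ℝ) : ℂ) ∈ U
    have : ((u.im / z.im : ℝ) : ℂ) * z + ((u.re - u.im / z.im * z.re : ℝ) : ℂ) = u := by
      apply Complex.ext
      · simp [Complex.mul_re]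
      · simp [Complex.mul_im, div_mul_cancel₀ _ hz.ne']
    rw [this]
    exact hu
  have hd : DenseRange (Prod.map (Rat.cast : ℚ → ℝ) (Rat.cast : ℚ → ℝ)) :=
    Rat.denseRange_cast.prodMap Rat.denseRange_cast
  obtain ⟨⟨a, b⟩, hab1, hab2⟩ := hd.exists_mem_open hopen hne
  have ha : (0 : ℝ) < (a : ℝ) := hab1
  have ha' : 0 < a := by exact_mod_cast ha
  have hw : ((a : ℝ) : ℂ) * z + ((b : ℝ) : ℂ) ∈ U := hab2
  refine ⟨_, hw, ?_, a, b, 0, 1, by linarith, ?_⟩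
  · simp only [Complex.add_im, Complex.mul_im, Complex.ofReal_re, Complex.ofReal_im, zero_mul, add_zero]
    positivity
  · push_cast
    ring

theorem re_cl {X : Set ℂ} {z : ℂ} (h : z ∈ M.closure X) (h' : (starRingEnd ℂ) z ∈ M.closure X) :
    ((z.re : ℝ) : ℂ) ∈ M.closure X := MS.re_mem_cl h h'

/-- conjugates of the jets -/
theorem conj_jet {X : Set ℂ} {z : ℂ} (hz : 0 < z.im) (h1 : jet z ⊆ M.closure X)
    (h2 : jet (MS.refl z) ⊆ M.closure X) {a : ℂ} (ha : a ∈ jet z) :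
    ((a.re : ℝ) : ℂ) ∈ M.closure X ∧ ((a.im : ℝ) : ℂ) ∈ M.closure X := by
  have h3 : (starRingEnd ℂ) a ∈ M.closure X := by
    rcases ha with rfl | rfl | rfl | ha
    · exact MS.conj_mem_cl (h2 (jet0 _))
    · rw [← jj_refl hz]; exact h2 (jet1 _)
    · have := cl_neg (h2 (jet2 _))
      rwa [jd_refl hz, neg_neg] at this
    · rw [mem_singleton_iff.mp ha, ← jdd_refl hz]; exact h2 (jet3 _)
  exact ⟨MS.re_mem_cl (h1 ha) h3, MS.im_mem_cl (h1 ha) h3⟩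

theorem exists_real {m : ℕ} {A : Set ℝ} (h : (m : ℕ∞) ≤ M.eRk ((fun x : ℝ => (x : ℂ)) '' A)) :
    ∃ w : Fin m → ℝ, (∀ k, w k ∈ A) ∧ AlgebraicIndependent ℚ w := by
  obtain ⟨w, hw1, hw2⟩ := exists_of_le_eRk h
  choose v hv1 hv2 using hw1
  refine ⟨v, hv1, ?_⟩
  have h4 : w = fun i => (Complex.ofRealAm.restrictScalars ℚ) (v i) := by
    funext i
    exact (hv2 i).symm
  rw [h4] at hw2
  exact AlgebraicIndependent.of_comp (Complex.ofRealAm.restrictScalars ℚ) hw2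

theorem le_of_real {m : ℕ} {X : Set ℂ} (w : Fin m → ℝ) (hw : ∀ k, ((w k : ℝ) : ℂ) ∈ M.closure X)
    (h : AlgebraicIndependent ℚ w) : (m : ℕ∞) ≤ M.eRk X := by
  have hw2 : AlgebraicIndependent ℚ (fun i => (Complex.ofRealAm.restrictScalars ℚ) (w i)) :=
    AlgebraicIndependent.map' h Complex.ofReal_injective
  exact enat_le_eRk _ hw2 fun k => hw k

/-- the four numbers as a tuple -/
theorem jet_eq_range (z : ℂ) : jet z = range ![z, jj z, deriv jj z, deriv (deriv jj) z] := by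
  unfold jet
  ext x
  simp only [mem_insert_iff, mem_singleton_iff, mem_range]
  constructor
  · rintro (h | h | h | h)
    · exact ⟨0, h.symm⟩
    · exact ⟨1, h.symm⟩
    · exact ⟨2, h.symm⟩
    · exact ⟨3, h.symm⟩
  · rintro ⟨i, hi⟩
    fin_cases i
    · exact Or.inl hi.symm
    · exact Or.inr (Or.inl hi.symm)
    · exact Or.inr (Or.inr (Or.inl hi.symm))
    · exact Or.inr (Or.inr (Or.inr hi.symm))

/-- the rank grows by at most three -/
theorem rank_of_dep {Y : Set ℂ} {z : ℂ}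
    (h : ¬ AlgebraicIndependent (IntermediateField.adjoin ℚ Y) ![z, jj z, deriv jj z, deriv (deriv jj) z]) :
    ∃ Z : Set ℂ, Z.encard ≤ 3 ∧ jet z ⊆ M.closure (Y ∪ Z) := by
  obtain ⟨i, hi⟩ := exists_dep _ h
  refine ⟨(![z, jj z, deriv jj z, deriv (deriv jj) z] : Fin 4 → ℂ) '' {i}ᶜ, ?_, ?_⟩
  · refine (encard_image_le _ _).trans ?_
    have h1 : (({i}ᶜ : Set (Fin 4))).encard + ({i} : Set (Fin 4)).encard = (univ : Set (Fin 4)).encard := by
      rw [add_comm, encard_add_encard_compl]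
    rw [encard_singleton] at h1
    have h2 : (univ : Set (Fin 4)).encard = 3 + 1 := by
      simp
      norm_num
    rw [h2] at h1
    exact (ENat.add_le_add_iff_right (by simp)).mp h1.le
  · rw [jet_eq_range]
    rintro _ ⟨k, rfl⟩
    by_cases hk : k = i
    · rw [hk]; exact hi
    · exact subset_cl _ (Or.inr ⟨k, hk, rfl⟩)

theorem step_of_dep {Y : Set ℂ} {z : ℂ}
    (h : ¬ AlgebraicIndependent (IntermediateField.adjoin ℚ Y) ![z, jj z, deriv jj z, deriv (deriv jj) z]) :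
    M.eRk (Y ∪ jet z) ≤ M.eRk Y + ((3 : ℕ) : ℕ∞) := by
  obtain ⟨Z, h1, h2⟩ := rank_of_dep h
  calc M.eRk (Y ∪ jet z) ≤ M.eRk (M.closure (Y ∪ Z)) :=
        M.eRk_mono (union_subset (subset_union_left.trans (subset_cl _)) h2)
    _ = M.eRk (Y ∪ Z) := M.eRk_closure_eq _
    _ ≤ M.eRk Y + M.eRk Z := M.eRk_union_le_eRk_add_eRk _ _
    _ ≤ M.eRk Y + ((3 : ℕ) : ℕ∞) := add_le_add le_rfl ((M.eRk_le_encard _).trans (h1.trans (by norm_num)))

end Pool.Agent.Q280.MD
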