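import Pool.Agent.H497R2.Der
import Pool.Agent.Q241.SX.C

/-!
# Derivations of the complex numbers and power series
-/

set_option autoImplicit false

open Matroid Set Q241.SX

namespace Pool.Agent.Q280.MD

theorem cl_of_clF {X : Set ℂ} {a : ℂ} (h : IsAlgebraic (clF X) a) : a ∈ M.closure X := by
  have h1 : a ∈ M.closure (M.closure X) := by
    apply cl_of_isAlgebraic
    have h2 : IntermediateField.adjoin ℚ (M.closure X) = clF X := by
      have : (M.closure X : Set ℂ) = (clF X : Set ℂ) := rfl
      rw [this, IntermediateField.adjoin_self]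
    rw [h2]
    exact h
  rwa [M.closure_closure] at h1

/-- Derivations detect algebraic dependence. -/
theorem mem_cl_of_der {X : Set ℂ} {a : ℂ}
    (h : ∀ D : Derivation ℚ ℂ ℂ, (∀ x ∈ X, D x = 0) → D a = 0) : a ∈ M.closure X := by
  by_contra hcon
  have ht : Transcendental (clF X) a := fun h1 => hcon (cl_of_clF h1)
  obtain ⟨D, hD⟩ := H497R2.exists_derivation (clF X) ℂ ht
  have h1 := h (D.restrictScalars ℚ) (fun x hx => by
    have h2 : x ∈ clF X := subset_cl X hx
    exact D.map_algebraMap (⟨x, h2⟩ : clF X))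
  have h2 : D a = 0 := h1
  rw [hD] at h2
  exact one_ne_zero h2

/-- a derivation of a domain vanishing on the coefficients of a polynomial vanishes at its roots -/
theorem der_root {R : Type*} [CommRing R] [IsDomain R] [CharZero R] [Algebra ℚ R]
    (δ : Derivation ℚ R R) (U : R) : ∀ (n : ℕ) (p : Polynomial R), p.natDegree ≤ n → p ≠ 0 →
      (∀ i, δ (p.coeff i) = 0) → p.eval U = 0 → δ U = 0 := by
  intro n
  induction n with
  | zero =>
    intro p hd hp _ h0
    have h1 := Polynomial.eq_C_of_natDegree_le_zero hd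
    rw [h1, Polynomial.eval_C] at h0
    rw [h0, Polynomial.C_0] at h1
    exact absurd h1 hp
  | succ n ih =>
    intro p hd hp hc h0
    have key : δ (p.eval U) = (Polynomial.derivative p).eval U * δ U := by
      rw [δ.apply_eval_eq]
      have : δ.mapCoeffs p = 0 := by
        ext i
        exact hc i
      rw [this, map_zero, zero_add, smul_eq_mul]
    rw [h0, map_zero] at key
    rcases mul_eq_zero.mp key.symm with h | h
    · by_cases hder : Polynomial.derivative p = 0
      · have := Polynomial.derivative_eq_zero.mp hder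
        exact ih p (by omega) hp hc h0
      · refine ih (Polynomial.derivative p) ?_ hder ?_ h
        · have := Polynomial.natDegree_derivative_le p
          omega
        · intro i
          rw [Polynomial.coeff_derivative, δ.leibniz, hc, smul_zero, add_zero]
          have : δ ((i : R) + 1) = 0 := by
            rw [map_add, Derivation.map_one_eq_zero, add_zero]
            exact δ.map_natCast i
          rw [this, smul_zero]
    · exact h

/-- A derivation vanishing on `X` vanishes on the closure. -/
theorem der_cl (D : Derivation ℚ ℂ ℂ) {X : Set ℂ} (hX : ∀ x ∈ X, D x = 0) {a : ℂ}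
    (ha : a ∈ M.closure X) : D a = 0 := by
  rw [mem_cl] at ha
  obtain ⟨p, hp0, hp⟩ := ha
  have hle : ∀ y ∈ Algebra.adjoin ℚ X, D y = 0 := by
    intro y hy
    induction hy using Algebra.adjoin_induction with
    | mem y hy => exact hX y hy
    | algebraMap n => exact D.map_algebraMap n
    | add _ _ _ _ h1 h2 => rw [map_add, h1, h2, add_zero]
    | mul _ _ _ _ h1 h2 => rw [D.leibniz, h1, h2, smul_zero, smul_zero, add_zero]
  refine der_root D a _ (p.map (algebraMap (Algebra.adjoin ℚ X) ℂ)) le_rfl ?_ ?_ ?_
  · exact (Polynomial.map_ne_zero_iff (FaithfulSMul.algebraMap_injective _ _)).mpr hp0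
  · intro i
    rw [Polynomial.coeff_map]
    exact hle _ (p.coeff i).2
  · rw [Polynomial.eval_map]
    exact hp

open PowerSeries in
/-- the derivative of the coefficients -/
noncomputable def dtf (D : Derivation ℚ ℂ ℂ) (f : PowerSeries ℂ) : PowerSeries ℂ :=
  PowerSeries.mk fun n => D (coeff n f)

open PowerSeries in
theorem coeff_dtf (D : Derivation ℚ ℂ ℂ) (f : PowerSeries ℂ) (n : ℕ) :
    coeff n (dtf D f) = D (coeff n f) := PowerSeries.coeff_mk _ _

open PowerSeries in
/-- the derivation on the coefficients -/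
noncomputable def dt (D : Derivation ℚ ℂ ℂ) : Derivation ℚ (PowerSeries ℂ) (PowerSeries ℂ) :=
  Derivation.mk'
    { toFun := dtf D
      map_add' := fun f g => by
        ext n
        rw [coeff_dtf, map_add, map_add, map_add, coeff_dtf, coeff_dtf]
      map_smul' := fun q f => by
        ext n
        rw [coeff_dtf, RingHom.id_apply]
        have h1 : coeff n (q • f) = q • coeff n f := rfl
        have h2 : coeff n (q • dtf D f) = q • coeff n (dtf D f) := rfl
        rw [h1, h2, coeff_dtf, D.map_smul] }
    (fun f g => by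
      ext n
      show coeff n (dtf D (f * g)) = coeff n (f * dtf D g + g * dtf D f)
      rw [coeff_dtf, map_add, coeff_mul, coeff_mul, mul_comm g, coeff_mul, map_sum,
        ← Finset.sum_add_distrib]
      refine Finset.sum_congr rfl fun p _ => ?_
      rw [D.leibniz, coeff_dtf, coeff_dtf, smul_eq_mul, smul_eq_mul, mul_comm (coeff p.2 g)])

open PowerSeries in
theorem coeff_dt (D : Derivation ℚ ℂ ℂ) (f : PowerSeries ℂ) (n : ℕ) :
    coeff n (dt D f) = D (coeff n f) := coeff_dtf D f n

instance : CharZero (PowerSeries ℂ) := algebraRat.charZero _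

/-- the derivation which vanishes at `V` -/
noncomputable def dV (D : Derivation ℚ ℂ ℂ) (V : PowerSeries ℂ) :
    Derivation ℚ (PowerSeries ℂ) (PowerSeries ℂ) :=
  (PowerSeries.derivative ℂ V) • dt D - (dt D V) • (PowerSeries.derivative ℂ).restrictScalars ℚ

theorem dV_apply (D : Derivation ℚ ℂ ℂ) (V f : PowerSeries ℂ) :
    dV D V f = PowerSeries.derivative ℂ V * dt D f - dt D V * PowerSeries.derivative ℂ f := rfl

theorem dV_self (D : Derivation ℚ ℂ ℂ) (V : PowerSeries ℂ) : dV D V V = 0 := by
  rw [dV_apply]
  ring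

theorem dV_C (D : Derivation ℚ ℂ ℂ) (V : PowerSeries ℂ) {c : ℂ} (hc : D c = 0) :
    dV D V (PowerSeries.C c) = 0 := by
  rw [dV_apply]
  have h1 : dt D (PowerSeries.C c) = 0 := by
    ext n
    rw [coeff_dt, PowerSeries.coeff_C]
    split_ifs
    · rw [hc, map_zero]
    · simp
  rw [h1]
  simp

/-- **The relation between the coefficients.** -/
theorem rel_of_root {D : Derivation ℚ ℂ ℂ} {V U : PowerSeries ℂ} (p : Polynomial (PowerSeries ℂ))
    (hp : p ≠ 0) (h0 : p.eval U = 0) (hc : ∀ i, dV D V (p.coeff i) = 0) :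
    PowerSeries.derivative ℂ V * dt D U = dt D V * PowerSeries.derivative ℂ U := by
  have h1 := der_root (dV D V) U _ p le_rfl hp hc h0
  rw [dV_apply] at h1
  exact sub_eq_zero.mp h1

open PowerSeries in
theorem rel_coeff {D : Derivation ℚ ℂ ℂ} {V U : PowerSeries ℂ}
    (h : PowerSeries.derivative ℂ V * dt D U = dt D V * PowerSeries.derivative ℂ U) :
    coeff 1 V * D (coeff 0 U) = D (coeff 0 V) * coeff 1 U ∧
    coeff 1 V * D (coeff 1 U) + 2 * coeff 2 V * D (coeff 0 U) =
      D (coeff 1 V) * coeff 1 U + D (coeff 0 V) * (2 * coeff 2 U) ∧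
    coeff 1 V * D (coeff 2 U) + 2 * coeff 2 V * D (coeff 1 U) + 3 * coeff 3 V * D (coeff 0 U) =
      D (coeff 2 V) * coeff 1 U + D (coeff 1 V) * (2 * coeff 2 U) + D (coeff 0 V) * (3 * coeff 3 U) := by
  have e0 := congrArg (coeff 0) h
  have e1 := congrArg (coeff 1) h
  have e2 := congrArg (coeff 2) h
  rw [coeff_mul, coeff_mul] at e0 e1 e2
  simp only [Finset.Nat.antidiagonal_zero, Finset.sum_singleton, coeff_derivative, coeff_dt] at e0
  have a1 : (Finset.HasAntidiagonal.antidiagonal 1 : Finset (ℕ × ℕ)) = {(0, 1), (1, 0)} := rfl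
  have a2 : (Finset.HasAntidiagonal.antidiagonal 2 : Finset (ℕ × ℕ)) = {(0, 2), (1, 1), (2, 0)} := rfl
  rw [a1, Finset.sum_pair (by decide), Finset.sum_pair (by decide)] at e1
  rw [a2, Finset.sum_insert (by decide), Finset.sum_pair (by decide), Finset.sum_insert (by decide),
    Finset.sum_pair (by decide)] at e2
  simp only [coeff_derivative, coeff_dt] at e1 e2
  norm_num at e0 e1 e2
  simp only [coeff_zero_eq_constantCoeff]
  refine ⟨by linear_combination e0, by linear_combination e1, by linear_combination e2⟩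

end Pool.Agent.Q280.MD
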