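import Pool.Agent.Q280.MD.Conv

/-!
# Exact inequalities over a set of classes
-/

set_option autoImplicit false

open Matroid Set Q241.SX Filter Topology

namespace Pool.Agent.Q280.MD

namespace SysW

variable {A : SysW}

/-- a finite subset of the numbers attached to a set of classes comes from finitely many classes -/
theorem exists_classes {B : Set A.O} {T : Set ℂ} (hT : T.Finite) (hTB : T ⊆ A.P B) :
    ∃ V : Finset A.O, (V : Set A.O) ⊆ B ∧ T ⊆ A.P (V : Set A.O) := by
  classical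
  choose g hg1 hg2 using hTB
  refine ⟨hT.toFinset.attach.image fun a => A.q (g (hT.mem_toFinset.mp a.2)), ?_, ?_⟩
  · intro v hv
    rw [Finset.mem_coe, Finset.mem_image] at hv
    obtain ⟨a, _, rfl⟩ := hv
    exact hg1 (hT.mem_toFinset.mp a.2)
  · intro a ha
    refine ⟨g ha, ?_, hg2 ha⟩
    rw [Finset.mem_coe, Finset.mem_image]
    exact ⟨⟨a, hT.mem_toFinset.mpr ha⟩, Finset.mem_attach _ _, rfl⟩

open Classical in
theorem Wt_union_disj {V W : Finset A.O} (h : Disjoint V W) : A.Wt (V ∪ W) = A.Wt V + A.Wt W :=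
  Finset.sum_union h

theorem rN_le_iff {V : Finset A.O} {m : ℕ} : m ≤ rN V ↔ (m : ℕ∞) ≤ A.rk (V : Set A.O) := by
  rw [← coe_rN]
  exact ENat.natCast_le_natCast.symm

open Classical in
/-- from the concentration of the defect to independent families over the field of `B` -/
theorem family_of_concentrated {B : Set A.O} (hB : ∀ V : Finset A.O, dfc V ≤ dfc (V.filter fun v => v ∈ B))
    {n : ℕ} (z : Fin n → A.X) (hz : ∀ i k, A.q (z i) = A.q (z k) → i = k) (hzB : ∀ i, A.q (z i) ∉ B) :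
    ∃ w : Fin (∑ i, A.w (z i)) → ℂ, (∀ k, w k ∈ ⋃ i, A.S (z i)) ∧
      AlgebraicIndependent (IntermediateField.adjoin ℚ (A.P B)) w := by
  refine exists_family_over (finite_iUnion fun i => A.fin (z i)) fun T hT hTB => ?_
  obtain ⟨V, hV1, hV2⟩ := exists_classes hT hTB
  refine ⟨A.P (V : Set A.O), hV2, (P_mono hV1).trans (subset_cl _), rk_ne_top V, ?_⟩
  have h1 := hB (V ∪ img z)
  have h2 : (V ∪ img z).filter (fun v => v ∈ B) = V := by
    ext v
    rw [Finset.mem_filter, Finset.mem_union]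
    constructor
    · rintro ⟨h | h, h3⟩
      · exact h
      · exfalso
        unfold img at h
        rw [Finset.mem_image] at h
        obtain ⟨i, _, rfl⟩ := h
        exact hzB i h3
    · intro h
      exact ⟨Or.inl h, hV1 h⟩
  have h3 : Disjoint V (img z) := by
    rw [Finset.disjoint_left]
    intro v hv h
    unfold img at h
    rw [Finset.mem_image] at h
    obtain ⟨i, _, rfl⟩ := h
    exact hzB i (hV1 hv)
  rw [h2] at h1
  unfold dfc at h1
  rw [Wt_union_disj h3, Wt_img z hz] at h1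
  have h4 : rN V + ∑ i, A.w (z i) ≤ rN (V ∪ img z) := by
    rw [Nat.cast_add] at h1
    omega
  have h5 : ((rN V + ∑ i, A.w (z i) : ℕ) : ℕ∞) ≤ A.rk ((V ∪ img z : Finset A.O) : Set A.O) := by
    rw [← coe_rN]
    exact_mod_cast h4
  have h6 : A.rk (V : Set A.O) + ((∑ i, A.w (z i) : ℕ) : ℕ∞) ≤ A.rk ((V ∪ img z : Finset A.O) : Set A.O) := by
    rw [← coe_rN V]
    exact_mod_cast h5
  refine h6.trans ?_
  rw [Finset.coe_union, rk, P_union, ← M.eRk_closure_eq ((⋃ i, A.S (z i)) ∪ A.P (V : Set A.O))]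
  refine M.eRk_mono (union_subset (subset_union_right.trans (subset_cl _)) ?_)
  exact (P_img z).trans (cl_mono subset_union_left)

open Classical in
/-- the converse -/
theorem concentrated_of_family {B : Set A.O}
    (hB : ∀ (n : ℕ) (z : Fin n → A.X), (∀ i k, A.q (z i) = A.q (z k) → i = k) → (∀ i, A.q (z i) ∉ B) →
      ∃ w : Fin (∑ i, A.w (z i)) → ℂ, (∀ k, w k ∈ ⋃ i, A.S (z i)) ∧
        AlgebraicIndependent (IntermediateField.adjoin ℚ (A.P B)) w) (V : Finset A.O) :
    dfc V ≤ dfc (V.filter fun v => v ∈ B) := by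
  obtain ⟨u, _, h2, h3, h4⟩ := exists_reps (V.filter fun v => v ∉ B) univ fun v _ => by
    obtain ⟨x, rfl⟩ := Quotient.exists_rep v
    exact ⟨x, mem_univ _, rfl⟩
  obtain ⟨w, hw1, hw2⟩ := hB _ u h4 fun i => (Finset.mem_filter.mp (h2 i)).2
  have h5 := rank_of_indep (T := A.P ((V.filter fun v => v ∈ B : Finset A.O) : Set A.O)) (by
    refine (P_mono ?_).trans (subset_cl _)
    intro v hv
    exact (Finset.mem_filter.mp hv).2) _ w hw2
  have h6 : M.eRk (A.P ((V.filter fun v => v ∈ B : Finset A.O) : Set A.O) ∪ range w) ≤ A.rk (V : Set A.O) := by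
    refine M.eRk_mono (union_subset (P_mono (Finset.coe_subset.mpr (Finset.filter_subset _ _))) ?_)
    rintro _ ⟨k, rfl⟩
    obtain ⟨i, hi⟩ := mem_iUnion.mp (hw1 k)
    exact S_sub_P (Finset.mem_coe.mpr (Finset.mem_filter.mp (h2 i)).1) hi
  have h7 := h5.trans h6
  have h8 : ((rN (V.filter fun v => v ∈ B) + ∑ i, A.w (u i) : ℕ) : ℕ∞) ≤ ((rN V : ℕ) : ℕ∞) := by
    rw [coe_rN V]
    push_cast
    rw [coe_rN]
    have : ((∑ i, A.w (u i) : ℕ) : ℕ∞) = ∑ i, (A.w (u i) : ℕ∞) := by push_cast; rfl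
    rw [← this]
    exact h7
  have h9 : rN (V.filter fun v => v ∈ B) + ∑ i, A.w (u i) ≤ rN V := by exact_mod_cast h8
  have h10 : ∑ i, A.w (u i) = A.Wt (V.filter fun v => v ∉ B) := by
    rw [← Wt_img u h4]
    congr 1
    ext v
    unfold img
    rw [Finset.mem_image]
    constructor
    · rintro ⟨i, _, rfl⟩
      exact h2 i
    · intro hv
      obtain ⟨k, hk⟩ := h3 v hv
      exact ⟨k, Finset.mem_univ _, hk⟩
  have h11 : A.Wt V = A.Wt (V.filter fun v => v ∈ B) + A.Wt (V.filter fun v => v ∉ B) :=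
    (Finset.sum_filter_add_sum_filter_not V _ _).symm
  unfold dfc
  omega

theorem Wt_empty : A.Wt ∅ = 0 := rfl

theorem rN_empty : rN (∅ : Finset A.O) = 0 := by
  have h1 : A.P ((∅ : Finset A.O) : Set A.O) = ∅ := by
    rw [Set.eq_empty_iff_forall_notMem]
    rintro a ⟨x, hx, _⟩
    simp at hx
  unfold rN rk
  rw [h1, M.eRk_empty]
  rfl

theorem dfc_empty : dfc (∅ : Finset A.O) = 0 := by
  unfold dfc
  rw [Wt_empty, rN_empty]
  rfl

end SysW

end Pool.Agent.Q280.MD
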