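import Pool.Agent.Q280.MD.Taylor
import Pool.Agent.Q280.MS.Pts
import Pool.Agent.TH21.MS.JDer

/-!
# Derivatives of the modular invariant: reflection, isogenies
-/

set_option autoImplicit false

open Matroid Set Q241.SX Filter Topology UpperHalfPlane ModularForm

namespace Pool.Agent.Q280.MD

open Pool.Agent.TH21.MS (jj jj_an E4 E6 E4_eq E6_eq disc_ne)
open Pool.Agent.Q280.MS (CM Equivalent refl den_ne)

theorem jj_eq (τ : ℍ) : jj τ = H294ZP.jj τ := by
  unfold jj H294ZP.jj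
  rw [E4_eq, E6_eq, discriminant_eq_E₄_cube_sub_E₆_sq τ]
  have h := disc_ne τ
  rw [E4_eq, E6_eq] at h
  field_simp

theorem jj_eq_J {z : ℂ} (hz : 0 < z.im) : jj z = Pool.Agent.Q280.MS.J z := by
  have h1 := jj_eq ⟨z, hz⟩
  have h2 := Pool.Agent.Q280.MS.J_eq ⟨z, hz⟩
  exact h1.trans h2.symm

theorem im_mem_nhds {z : ℂ} (hz : 0 < z.im) : ∀ᶠ s in 𝓝 z, 0 < s.im :=
  (isOpen_lt continuous_const Complex.continuous_im).mem_nhds hz

/-- the derivative of a function with a symmetry -/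
theorem deriv_refl {f : ℂ → ℂ} {ε : ℝ} (h : ∀ s : ℂ, 0 < s.im → f s = ε * (starRingEnd ℂ) (f (refl s)))
    {s : ℂ} (hs : 0 < s.im) : deriv f s = ((-ε : ℝ) : ℂ) * (starRingEnd ℂ) (deriv f (refl s)) := by
  have h1 : f =ᶠ[𝓝 s] fun s => (ε : ℂ) * ((starRingEnd ℂ) ∘ (fun t => f (-t)) ∘ (starRingEnd ℂ)) s := by
    filter_upwards [im_mem_nhds hs] with t ht
    exact h t ht
  rw [h1.deriv_eq, deriv_const_mul_field, deriv_conj_conj]
  show (ε : ℂ) * (starRingEnd ℂ) (deriv (fun t => f (-t)) ((starRingEnd ℂ) s)) = _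
  rw [deriv_comp_neg, map_neg]
  show (ε : ℂ) * -(starRingEnd ℂ) (deriv f (-(starRingEnd ℂ) s)) = _
  unfold MS.refl
  push_cast
  ring

theorem jj_refl {z : ℂ} (hz : 0 < z.im) : jj (refl z) = (starRingEnd ℂ) (jj z) := by
  rw [jj_eq_J (by rw [Pool.Agent.Q280.MS.refl_im]; exact hz), jj_eq_J hz]
  exact Pool.Agent.Q280.MS.J_refl z

theorem refl_pos {z : ℂ} (hz : 0 < z.im) : 0 < (refl z).im := by
  rw [Pool.Agent.Q280.MS.refl_im]; exact hz

theorem jj_sym {s : ℂ} (hs : 0 < s.im) : jj s = ((1 : ℝ) : ℂ) * (starRingEnd ℂ) (jj (refl s)) := by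
  rw [jj_refl hs, Complex.conj_conj]
  push_cast
  ring

theorem jd_sym {s : ℂ} (hs : 0 < s.im) :
    deriv jj s = ((-1 : ℝ) : ℂ) * (starRingEnd ℂ) (deriv jj (refl s)) :=
  deriv_refl (f := jj) (fun _ h => jj_sym h) hs

theorem jdd_sym {s : ℂ} (hs : 0 < s.im) :
    deriv (deriv jj) s = ((1 : ℝ) : ℂ) * (starRingEnd ℂ) (deriv (deriv jj) (refl s)) := by
  have := deriv_refl (f := deriv jj) (fun _ h => jd_sym h) hs
  rwa [neg_neg] at this

/-- the derivative at the reflected point -/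
theorem jd_refl {z : ℂ} (hz : 0 < z.im) : deriv jj (refl z) = -(starRingEnd ℂ) (deriv jj z) := by
  rw [jd_sym (refl_pos hz), Pool.Agent.Q280.MS.refl_refl]
  push_cast
  ring

theorem jdd_refl {z : ℂ} (hz : 0 < z.im) :
    deriv (deriv jj) (refl z) = (starRingEnd ℂ) (deriv (deriv jj) z) := by
  rw [jdd_sym (refl_pos hz), Pool.Agent.Q280.MS.refl_refl]
  push_cast
  ring

/-! ### Linear fractional maps -/

/-- `s ↦ (a s + b) / (c s + d)` -/
noncomputable def mob (a b c d : ℤ) (s : ℂ) : ℂ := ((a : ℂ) * s + b) / ((c : ℂ) * s + d)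

section

variable {a b c d : ℤ} (h : 0 < a * d - b * c)

include h

theorem den_ne' {s : ℂ} (hs : 0 < s.im) : (c : ℂ) * s + d ≠ 0 := by
  have h1 : (0 : ℚ) < (a : ℚ) * d - b * c := by exact_mod_cast h
  have := den_ne hs h1
  push_cast at this
  exact this

theorem mob_im {s : ℂ} (hs : 0 < s.im) : 0 < (mob a b c d s).im := by
  have h0 := den_ne' h hs
  have h1 : (mob a b c d s).im = ((a * d - b * c : ℤ) : ℝ) * s.im / Complex.normSq ((c : ℂ) * s + d) := by
    unfold mob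
    rw [Complex.div_im]
    simp only [Complex.add_re, Complex.add_im, Complex.mul_re, Complex.mul_im, Complex.intCast_re,
      Complex.intCast_im]
    push_cast
    ring
  rw [h1]
  have h2 : (0 : ℝ) < ((a * d - b * c : ℤ) : ℝ) := by exact_mod_cast h
  have h3 := Complex.normSq_pos.mpr h0
  positivity

theorem mob_deriv {s : ℂ} (hs : 0 < s.im) :
    HasDerivAt (mob a b c d) (((a * d - b * c : ℤ) : ℂ) / ((c : ℂ) * s + d) ^ 2) s := by
  have h0 := den_ne' h hs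
  have h1 : HasDerivAt (fun s : ℂ => (a : ℂ) * s + b) a s := by
    simpa using ((hasDerivAt_id s).const_mul (a : ℂ)).add_const (b : ℂ)
  have h2 : HasDerivAt (fun s : ℂ => (c : ℂ) * s + d) c s := by
    simpa using ((hasDerivAt_id s).const_mul (c : ℂ)).add_const (d : ℂ)
  refine (h1.div h2 h0).congr_deriv ?_
  push_cast
  congr 1
  ring

theorem mob_deriv2 {s : ℂ} (hs : 0 < s.im) :
    HasDerivAt (fun s : ℂ => ((a * d - b * c : ℤ) : ℂ) / ((c : ℂ) * s + d) ^ 2)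
      (-2 * c * ((a * d - b * c : ℤ) : ℂ) / ((c : ℂ) * s + d) ^ 3) s := by
  have h0 := den_ne' h hs
  have h2 : HasDerivAt (fun s : ℂ => (c : ℂ) * s + d) c s := by
    simpa using ((hasDerivAt_id s).const_mul (c : ℂ)).add_const (d : ℂ)
  have h3 := (hasDerivAt_const s ((a * d - b * c : ℤ) : ℂ)).div (h2.pow 2) (pow_ne_zero 2 h0)
  refine h3.congr_deriv ?_
  show (0 * ((c : ℂ) * s + d) ^ 2 - ((a * d - b * c : ℤ) : ℂ) * (((2 : ℕ) : ℂ) * ((c : ℂ) * s + d) ^ (2 - 1) * c)) /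
      (((c : ℂ) * s + d) ^ 2) ^ 2 = _
  generalize ((a * d - b * c : ℤ) : ℂ) = N
  field_simp
  push_cast
  ring

theorem mob_an {s : ℂ} (hs : 0 < s.im) : AnalyticAt ℂ (mob a b c d) s := by
  have h0 := den_ne' h hs
  have h1 : AnalyticAt ℂ (fun s : ℂ => (a : ℂ) * s + b) s :=
    (analyticAt_const.mul analyticAt_id).add analyticAt_const
  have h2 : AnalyticAt ℂ (fun s : ℂ => (c : ℂ) * s + d) s :=
    (analyticAt_const.mul analyticAt_id).add analyticAt_const
  exact h1.div h2 h0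

theorem comp_an {s : ℂ} (hs : 0 < s.im) : AnalyticAt ℂ (fun s => jj (mob a b c d s)) s :=
  AnalyticAt.fun_comp (jj_an _ (mob_im h hs)) (mob_an h hs)

theorem comp_deriv {s : ℂ} (hs : 0 < s.im) :
    deriv (fun s => jj (mob a b c d s)) s =
      deriv jj (mob a b c d s) * (((a * d - b * c : ℤ) : ℂ) / ((c : ℂ) * s + d) ^ 2) := by
  have h1 : HasDerivAt jj (deriv jj (mob a b c d s)) (mob a b c d s) :=
    (jj_an _ (mob_im h hs)).differentiableAt.hasDerivAt
  exact (h1.comp s (mob_deriv h hs)).deriv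

theorem comp_deriv2 {s : ℂ} (hs : 0 < s.im) :
    deriv (deriv (fun s => jj (mob a b c d s))) s =
      deriv (deriv jj) (mob a b c d s) * (((a * d - b * c : ℤ) : ℂ) / ((c : ℂ) * s + d) ^ 2) ^ 2 +
      deriv jj (mob a b c d s) * (-2 * c * ((a * d - b * c : ℤ) : ℂ) / ((c : ℂ) * s + d) ^ 3) := by
  have h0 : deriv (fun s => jj (mob a b c d s)) =ᶠ[𝓝 s] fun s =>
      deriv jj (mob a b c d s) * (((a * d - b * c : ℤ) : ℂ) / ((c : ℂ) * s + d) ^ 2) := by
    filter_upwards [im_mem_nhds hs] with t ht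
    exact comp_deriv h ht
  rw [h0.deriv_eq]
  have h1 : HasDerivAt (deriv jj) (deriv (deriv jj) (mob a b c d s)) (mob a b c d s) :=
    (jj_an _ (mob_im h hs)).deriv.differentiableAt.hasDerivAt
  have h2 := (h1.comp s (mob_deriv h hs)).mul (mob_deriv2 h hs)
  refine h2.deriv.trans ?_
  simp only [Function.comp]
  ring

theorem rel_event {s : ℂ} (hs : 0 < s.im) : ∃ (P : ℕ → Polynomial Pool.Agent.Y226.ZZ) (N : ℕ), P N = 1 ∧
    ∀ᶠ t in 𝓝 s, Pool.Agent.Y226.PsiE Pool.Agent.Y226.ιZ P N (jj t) (jj (mob a b c d t)) = 0 := by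
  obtain ⟨N, hN⟩ : ∃ N : ℕ, (N : ℤ) = a * d - b * c := ⟨(a * d - b * c).toNat, Int.toNat_of_nonneg h.le⟩
  have hN0 : 0 < N := by
    have : (0 : ℤ) < N := by rw [hN]; exact h
    exact_mod_cast this
  obtain ⟨ι, _, α, δ, β, hh, P, _, _, h3, _, h5⟩ := Pool.Agent.Y226.modular_family N hN0
  refine ⟨P, Fintype.card ι, h3, ?_⟩
  filter_upwards [im_mem_nhds hs] with t ht
  have h6 := h5 ⟨t, ht⟩ ⟨mob a b c d t, mob_im h ht⟩ a b c d hN.symm (by
    show mob a b c d t * ((c : ℂ) * t + d) = (a : ℂ) * t + b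
    unfold mob
    rw [div_mul_cancel₀ _ (den_ne' h ht)])
  rw [← jj_eq, ← jj_eq] at h6
  exact h6

end

/-- **The relations between the derivatives at isogenous points.** -/
theorem rel3 {z w : ℂ} (hz : 0 < z.im) {a b c d : ℤ} (h : 0 < a * d - b * c)
    (hw : w * ((c : ℂ) * z + d) = (a : ℂ) * z + b) (D : Derivation ℚ ℂ ℂ) :
    ∃ (μ κ v3 u3 : ℂ), μ ≠ 0 ∧ μ ∈ M.closure {z} ∧ κ ∈ M.closure {z} ∧
      μ = ((a * d - b * c : ℤ) : ℂ) / ((c : ℂ) * z + d) ^ 2 ∧
      deriv jj z * D (jj w) = D (jj z) * (deriv jj w * μ) ∧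
      deriv jj z * D (deriv jj w * μ) + deriv (deriv jj) z * D (jj w) =
        D (deriv jj z) * (deriv jj w * μ) + D (jj z) * (deriv (deriv jj) w * μ ^ 2 + deriv jj w * κ) ∧
      deriv jj z * D (2⁻¹ * (deriv (deriv jj) w * μ ^ 2 + deriv jj w * κ)) +
        deriv (deriv jj) z * D (deriv jj w * μ) + 3 * v3 * D (jj w) =
        D (2⁻¹ * deriv (deriv jj) z) * (deriv jj w * μ) +
          D (deriv jj z) * (deriv (deriv jj) w * μ ^ 2 + deriv jj w * κ) + D (jj z) * (3 * u3) := by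
  have h0 := den_ne' h hz
  have hw' : w = mob a b c d z := by
    unfold mob
    rw [← hw, mul_div_cancel_right₀ _ h0]
  obtain ⟨P, N, hP, hev⟩ := rel_event h hz
  have key := rel_coeff (taylor_rel D P N hP (jj_an z hz) (comp_an h hz) hev)
  have hzc : z ∈ M.closure {z} := subset_cl _ rfl
  have hint : ∀ n : ℤ, (n : ℂ) ∈ M.closure {z} := fun n => by simpa using cl_rat (X := {z}) (n : ℚ)
  have hden : ((c : ℂ) * z + d) ∈ M.closure {z} := cl_add (cl_mul (hint c) hzc) (hint d)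
  have hN0 : ((a * d - b * c : ℤ) : ℂ) ≠ 0 := by exact_mod_cast h.ne'
  have f0 : ∀ f : ℂ → ℂ, PowerSeries.coeff 0 (tyf z f) = f z := by
    intro f
    rw [coeff_tyf, iteratedDeriv_zero]
    simp
  have f1 : ∀ f : ℂ → ℂ, PowerSeries.coeff 1 (tyf z f) = deriv f z := by
    intro f
    rw [coeff_tyf, iteratedDeriv_one]
    simp
  have f2 : ∀ f : ℂ → ℂ, PowerSeries.coeff 2 (tyf z f) = 2⁻¹ * deriv (deriv f) z := by
    intro f
    rw [coeff_tyf, iteratedDeriv_succ', iteratedDeriv_one]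
    norm_num [Nat.factorial]
  rw [f0, f0, f1, f1, f2, f2, comp_deriv h hz, comp_deriv2 h hz, ← hw'] at key
  refine ⟨((a * d - b * c : ℤ) : ℂ) / ((c : ℂ) * z + d) ^ 2,
    -2 * c * ((a * d - b * c : ℤ) : ℂ) / ((c : ℂ) * z + d) ^ 3,
    PowerSeries.coeff 3 (tyf z jj), PowerSeries.coeff 3 (tyf z fun s => jj (mob a b c d s)),
    div_ne_zero hN0 (pow_ne_zero 2 h0), ?_, ?_, rfl, ?_, ?_, ?_⟩
  · rw [div_eq_mul_inv]
    exact cl_mul (hint _) (cl_inv (cl_pow 2 hden))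
  · rw [div_eq_mul_inv]
    refine cl_mul (cl_mul (cl_mul ?_ (hint c)) (hint _)) (cl_inv (cl_pow 3 hden))
    simpa using hint (-2)
  · exact key.1
  · linear_combination key.2.1
  · linear_combination key.2.2

end Pool.Agent.Q280.MD
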