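import Pool.Agent.Q280.MD.JC

/-!
# The algebraic closures of the fields generated by the values at equivalent points
-/

set_option autoImplicit false

open Matroid Set Q241.SX Filter Topology

namespace Pool.Agent.Q280.MD

open Pool.Agent.TH21.MS (jj jj_an E4 E6 E4_eq E6_eq disc_ne)
open Pool.Agent.Q280.MS (CM Equivalent den_ne)

/-- the four numbers attached to a point -/
noncomputable def jet (z : ℂ) : Set ℂ := {z, jj z, deriv jj z, deriv (deriv jj) z}

theorem jet_sub {X : Set ℂ} {z : ℂ} (h0 : z ∈ X) (h1 : jj z ∈ X) (h2 : deriv jj z ∈ X)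
    (h3 : deriv (deriv jj) z ∈ X) : jet z ⊆ X := by
  rintro x (rfl | rfl | rfl | rfl) <;> assumption

theorem jet0 (z : ℂ) : z ∈ jet z := by simp [jet]
theorem jet1 (z : ℂ) : jj z ∈ jet z := by simp [jet]
theorem jet2 (z : ℂ) : deriv jj z ∈ jet z := by simp [jet]
theorem jet3 (z : ℂ) : deriv (deriv jj) z ∈ jet z := by simp [jet]

theorem jet_fin (z : ℂ) : (jet z).Finite := by
  unfold jet
  exact ((((finite_singleton _).insert _).insert _).insert _)

/-- an integral matrix for equivalent points -/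
theorem exists_int {z w : ℂ} (h : Equivalent z w) :
    ∃ a' b' c' d' : ℤ, 0 < a' * d' - b' * c' ∧ w * ((c' : ℂ) * z + d') = a' * z + b' := by
  obtain ⟨a, b, c, d, h1, h2⟩ := h
  obtain ⟨D, hD⟩ : ∃ D : ℤ, D = a.den * b.den * c.den * d.den := ⟨_, rfl⟩
  have hD0 : (D : ℚ) ≠ 0 := by
    rw [hD]; push_cast
    have h1 := a.den_ne_zero; have h2 := b.den_ne_zero
    have h3 := c.den_ne_zero; have h4 := d.den_ne_zero
    positivity
  have ha : ∃ a' : ℤ, (a' : ℚ) = D * a := ⟨a.num * (b.den * c.den * d.den), by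
    rw [hD]; push_cast
    have := Rat.den_mul_eq_num a
    linear_combination -((b.den : ℚ) * c.den * d.den) * this⟩
  have hb : ∃ a' : ℤ, (a' : ℚ) = D * b := ⟨b.num * (a.den * c.den * d.den), by
    rw [hD]; push_cast
    have := Rat.den_mul_eq_num b
    linear_combination -((a.den : ℚ) * c.den * d.den) * this⟩
  have hc : ∃ a' : ℤ, (a' : ℚ) = D * c := ⟨c.num * (a.den * b.den * d.den), by
    rw [hD]; push_cast
    have := Rat.den_mul_eq_num c
    linear_combination -((a.den : ℚ) * b.den * d.den) * this⟩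
  have hd : ∃ a' : ℤ, (a' : ℚ) = D * d := ⟨d.num * (a.den * b.den * c.den), by
    rw [hD]; push_cast
    have := Rat.den_mul_eq_num d
    linear_combination -((a.den : ℚ) * b.den * c.den) * this⟩
  obtain ⟨a', ha'⟩ := ha
  obtain ⟨b', hb'⟩ := hb
  obtain ⟨c', hc'⟩ := hc
  obtain ⟨d', hd'⟩ := hd
  refine ⟨a', b', c', d', ?_, ?_⟩
  · have : ((a' * d' - b' * c' : ℤ) : ℚ) = D ^ 2 * (a * d - b * c) := by
      push_cast
      rw [ha', hb', hc', hd']
      ring
    have h5 : (0 : ℚ) < ((a' * d' - b' * c' : ℤ) : ℚ) := by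
      rw [this]
      positivity
    exact_mod_cast h5
  · have ha2 : (a' : ℂ) = D * a := by exact_mod_cast congrArg (fun q : ℚ => (q : ℂ)) ha'
    have hb2 : (b' : ℂ) = D * b := by exact_mod_cast congrArg (fun q : ℚ => (q : ℂ)) hb'
    have hc2 : (c' : ℂ) = D * c := by exact_mod_cast congrArg (fun q : ℚ => (q : ℂ)) hc'
    have hd2 : (d' : ℂ) = D * d := by exact_mod_cast congrArg (fun q : ℚ => (q : ℂ)) hd'
    rw [ha2, hb2, hc2, hd2]
    linear_combination (D : ℂ) * h2

theorem jj_mem_cl {z w : ℂ} (hz : 0 < z.im) (hw : 0 < w.im) (h : Equivalent z w) :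
    jj w ∈ M.closure {jj z} := by
  rw [jj_eq_J hz, jj_eq_J hw]
  exact h.J_mem_cl hz hw

theorem jj_cm {z : ℂ} (hz : 0 < z.im) (h : CM z) (X : Set ℂ) : jj z ∈ M.closure X := by
  rw [jj_eq_J hz]
  exact h.J_mem_cl hz X

/-- a CM point is fixed by an integral matrix of positive determinant -/
theorem CM_data {z : ℂ} (hz : 0 < z.im) (h : CM z) : ∃ a b c : ℤ, a ≠ 0 ∧ 0 < a * c ∧
    (a : ℂ) * z ^ 2 + (b : ℂ) * z + (c : ℂ) = 0 := by
  obtain ⟨a, b, c, h0, h1⟩ := h
  have hre := congrArg Complex.re h1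
  have him := congrArg Complex.im h1
  simp only [pow_two, Complex.add_re, Complex.add_im, Complex.mul_re, Complex.mul_im, Complex.intCast_re,
    Complex.intCast_im, zero_mul, sub_zero, add_zero, Complex.zero_re, Complex.zero_im] at hre him
  obtain ⟨x, hx⟩ : ∃ x : ℝ, x = z.re := ⟨_, rfl⟩
  obtain ⟨y, hy⟩ : ∃ y : ℝ, y = z.im := ⟨_, rfl⟩
  rw [← hx, ← hy] at hre him
  rw [← hy] at hz
  have h2 : (b : ℝ) = -(2 * a * x) := by
    have : y * (2 * a * x + b) = 0 := by linear_combination him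
    rcases mul_eq_zero.mp this with h | h
    · exact absurd h hz.ne'
    · linarith
  have h3 : (c : ℝ) = a * (x ^ 2 + y ^ 2) := by
    rw [h2] at hre
    linear_combination hre
  have ha : a ≠ 0 := by
    rintro rfl
    simp only [Int.cast_zero, mul_zero, zero_mul, neg_zero] at h2 h3
    have h4 : b = 0 := by exact_mod_cast h2
    have h5 : c = 0 := by exact_mod_cast h3
    subst h4 h5
    simp at h0
  refine ⟨a, b, c, ha, ?_, h1⟩
  have ha' : (a : ℝ) ≠ 0 := by exact_mod_cast ha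
  have h4 : (0 : ℝ) < a * c := by
    rw [h3]
    have : (0 : ℝ) < x ^ 2 + y ^ 2 := by positivity
    have h5 : (0 : ℝ) < a ^ 2 := by positivity
    have h6 : (a : ℝ) * (a * (x ^ 2 + y ^ 2)) = a ^ 2 * (x ^ 2 + y ^ 2) := by ring
    rw [h6]
    positivity
  exact_mod_cast h4

theorem CM.alg {z : ℂ} (hz : 0 < z.im) (h : CM z) (X : Set ℂ) : z ∈ M.closure X := by
  obtain ⟨a, b, c, ha, _, h1⟩ := CM_data hz h
  have hint : ∀ n : ℤ, (n : ℂ) ∈ M.closure X := fun n => by simpa using cl_rat (X := X) (n : ℚ)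
  have ha' : (a : ℂ) ≠ 0 := by exact_mod_cast ha
  have h2 : (z + (b : ℂ) * (2 * (a : ℂ))⁻¹) ^ 2 = ((b : ℂ) ^ 2 + -(4 * (a : ℂ) * c)) * (4 * (a : ℂ) ^ 2)⁻¹ := by
    field_simp
    linear_combination (16 * (a : ℂ)) * h1
  have h4 : (4 : ℂ) ∈ M.closure X := by simpa using hint 4
  have h2' : (2 : ℂ) ∈ M.closure X := by simpa using hint 2
  have h3 : z + (b : ℂ) * (2 * (a : ℂ))⁻¹ ∈ M.closure X := by
    apply cl_of_pow (n := 2) (by norm_num)
    rw [h2]
    exact cl_mul (cl_add (cl_pow 2 (hint b)) (cl_neg (cl_mul (cl_mul h4 (hint a)) (hint c))))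
      (cl_inv (cl_mul h4 (cl_pow 2 (hint a))))
  have h5 : z = (z + (b : ℂ) * (2 * (a : ℂ))⁻¹) + -((b : ℂ) * (2 * (a : ℂ))⁻¹) := by ring
  rw [h5]
  exact cl_add h3 (cl_neg (cl_mul (hint b) (cl_inv (cl_mul h2' (hint a)))))

theorem der_of_cl (D : Derivation ℚ ℂ ℂ) {z : ℂ} (hz : D z = 0) {μ : ℂ} (h : μ ∈ M.closure {z}) : D μ = 0 :=
  der_cl D (X := {z}) (fun x hx => by rw [mem_singleton_iff.mp hx]; exact hz) h

/-- **The values at an equivalent point are algebraic over the values at a point with `j' ≠ 0`.** -/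
theorem jet_step {z w : ℂ} (hz : 0 < z.im) (h : Equivalent z w) (h1 : deriv jj z ≠ 0) :
    jet w ⊆ M.closure (jet z) := by
  obtain ⟨a, b, c, d, hdet, heq⟩ := exists_int h
  have key : ∀ D : Derivation ℚ ℂ ℂ, (∀ x ∈ jet z, D x = 0) →
      D (jj w) = 0 ∧ D (deriv jj w) = 0 ∧ D (deriv (deriv jj) w) = 0 := by
    intro D hD
    obtain ⟨μ, κ, v3, u3, hμ, hμc, hκc, _, e0, e1, e2⟩ := rel3 hz hdet heq D
    have k0 := hD z (jet0 z)
    have k1 := hD _ (jet1 z)
    have k2 := hD _ (jet2 z)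
    have k3 := hD _ (jet3 z)
    have kμ : D μ = 0 := der_of_cl D k0 hμc
    have kκ : D κ = 0 := der_of_cl D k0 hκc
    have l0 : D (jj w) = 0 := by
      rw [k1, zero_mul] at e0
      exact (mul_eq_zero.mp e0).resolve_left h1
    have l1 : D (deriv jj w) = 0 := by
      rw [k1, k2, l0, mul_zero, zero_mul, zero_mul, add_zero, add_zero, D.leibniz, kμ, smul_zero,
        zero_add, smul_eq_mul] at e1
      exact (mul_eq_zero.mp ((mul_eq_zero.mp e1).resolve_left h1)).resolve_left hμ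
    refine ⟨l0, l1, ?_⟩
    have m2 : D (2⁻¹ * deriv (deriv jj) z) = 0 := by
      rw [D.leibniz, k3, smul_zero, zero_add]
      have : D (2⁻¹ : ℂ) = 0 := by
        have := D.map_algebraMap (2⁻¹ : ℚ)
        simpa using this
      rw [this, smul_zero]
    have m3 : D (deriv jj w * μ) = 0 := by rw [D.leibniz, kμ, l1, smul_zero, smul_zero, add_zero]
    have m4 : D (2⁻¹ * (deriv (deriv jj) w * μ ^ 2 + deriv jj w * κ)) = 2⁻¹ * (μ ^ 2 * D (deriv (deriv jj) w)) := by
      have h2 : D (2⁻¹ : ℂ) = 0 := by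
        have := D.map_algebraMap (2⁻¹ : ℚ)
        simpa using this
      have hμ2 : D (μ ^ 2) = 0 := by rw [D.leibniz_pow, kμ, smul_zero, smul_zero]
      rw [D.leibniz, h2, smul_zero, add_zero, map_add, D.leibniz, D.leibniz, hμ2, kκ, l1, smul_zero,
        smul_zero, smul_zero, add_zero, add_zero, zero_add, smul_eq_mul, smul_eq_mul]
    rw [m2, m3, m4, k1, k2, l0] at e2
    have e3 : deriv jj z * (2⁻¹ * (μ ^ 2 * D (deriv (deriv jj) w))) = 0 := by linear_combination e2
    have e4 := (mul_eq_zero.mp e3).resolve_left h1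
    have e5 := (mul_eq_zero.mp e4).resolve_left (by norm_num)
    exact (mul_eq_zero.mp e5).resolve_left (pow_ne_zero 2 hμ)
  refine jet_sub ?_ ?_ ?_ ?_
  · exact cl_mono (singleton_subset_iff.mpr (jet0 z)) (h.mem_cl hz)
  · exact mem_cl_of_der fun D hD => (key D hD).1
  · exact mem_cl_of_der fun D hD => (key D hD).2.1
  · exact mem_cl_of_der fun D hD => (key D hD).2.2

/-- **At a CM point with `j' ≠ 0` the second derivative is algebraic over `ℚ(j')`.** -/
theorem jet_cm {z : ℂ} (hz : 0 < z.im) (h : CM z) (h1 : deriv jj z ≠ 0) :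
    jet z ⊆ M.closure {deriv jj z} := by
  obtain ⟨a, b, c, ha, hac, heq⟩ := CM_data hz h
  have hdet : 0 < 0 * b - (-c) * a := by linarith
  have heq' : z * ((a : ℂ) * z + b) = ((0 : ℤ) : ℂ) * z + ((-c : ℤ) : ℂ) := by
    push_cast
    linear_combination heq
  refine jet_sub (CM.alg hz h _) (jj_cm hz h _) (subset_cl _ rfl) ?_
  refine mem_cl_of_der fun D hD => ?_
  obtain ⟨μ, κ, v3, u3, hμ, hμc, hκc, hμe, e0, e1, e2⟩ := rel3 hz hdet heq' D
  have k0 : D z = 0 := der_cl D (X := ∅) (by simp) (CM.alg hz h _)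
  have k1 : D (jj z) = 0 := der_cl D (X := ∅) (by simp) (jj_cm hz h _)
  have k2 : D (deriv jj z) = 0 := hD _ rfl
  have kμ : D μ = 0 := der_of_cl D k0 hμc
  have kκ : D κ = 0 := der_of_cl D k0 hκc
  have h2 : D (2⁻¹ : ℂ) = 0 := by
    have := D.map_algebraMap (2⁻¹ : ℚ)
    simpa using this
  have hμ2 : D (μ ^ 2) = 0 := by rw [D.leibniz_pow, kμ, smul_zero, smul_zero]
  have m3 : D (deriv jj z * μ) = 0 := by rw [D.leibniz, kμ, k2, smul_zero, smul_zero, add_zero]
  have m2 : D (2⁻¹ * deriv (deriv jj) z) = 2⁻¹ * D (deriv (deriv jj) z) := by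
    rw [D.leibniz, h2, smul_zero, add_zero, smul_eq_mul]
  have m4 : D (2⁻¹ * (deriv (deriv jj) z * μ ^ 2 + deriv jj z * κ)) = 2⁻¹ * (μ ^ 2 * D (deriv (deriv jj) z)) := by
    rw [D.leibniz, h2, smul_zero, add_zero, map_add, D.leibniz, D.leibniz, hμ2, kκ, k2, smul_zero,
      smul_zero, smul_zero, add_zero, add_zero, zero_add, smul_eq_mul, smul_eq_mul]
  rw [m2, m3, m4, k1, k2] at e2
  have hμ1 : μ ≠ 1 := by
    intro hμ1
    have h0 := den_ne' hdet hz
    rw [hμe, div_eq_one_iff_eq (pow_ne_zero 2 h0)] at hμ1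
    have hre := congrArg Complex.re hμ1
    have him := congrArg Complex.im hμ1
    simp only [pow_two, Complex.add_re, Complex.add_im, Complex.mul_re, Complex.mul_im, Complex.intCast_re,
      Complex.intCast_im, zero_mul, sub_zero, add_zero] at hre him
    have hy := hz
    have ha' : (a : ℝ) ≠ 0 := by exact_mod_cast ha
    have h3 : (a : ℝ) * z.re + b = 0 := by
      have h4 : (2 * ((a : ℝ) * z.im)) * ((a : ℝ) * z.re + b) = 0 := by linear_combination -him
      rcases mul_eq_zero.mp h4 with h5 | h5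
      · exfalso
        have : (2 * ((a : ℝ) * z.im)) ≠ 0 := by positivity
        exact this h5
      · exact h5
    rw [h3] at hre
    have h5 : (0 : ℝ) < ((0 - (-c) * a : ℤ) : ℝ) := by
      have : (0 : ℤ) < 0 - (-c) * a := by linarith
      exact_mod_cast this
    have h6 : 0 ≤ (a : ℝ) * z.im * (a * z.im) := mul_self_nonneg _
    linarith
  have e3 : deriv jj z * (μ * (μ - 1)) * D (deriv (deriv jj) z) = 0 := by linear_combination 2 * e2
  exact (mul_eq_zero.mp e3).resolve_left (mul_ne_zero h1 (mul_ne_zero hμ (sub_ne_zero.mpr hμ1)))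

/-- **The case of the points equivalent to `i`.** -/
theorem jet_back {z w : ℂ} (hz : 0 < z.im) (hw : 0 < w.im) (hcm : CM z) (h : Equivalent z w)
    (h1 : deriv jj z ≠ 0) (h2 : deriv jj w = 0) (h3 : deriv (deriv jj) w ≠ 0) :
    jet z ⊆ M.closure {deriv (deriv jj) w} := by
  have h4 : deriv jj z ∈ M.closure {deriv (deriv jj) w} := by
    obtain ⟨a, b, c, d, hdet, heq⟩ := exists_int h
    refine mem_cl_of_der fun D hD => ?_
    obtain ⟨μ, κ, v3, u3, hμ, hμc, hκc, _, e0, e1, e2⟩ := rel3 hz hdet heq D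
    have k0 : D z = 0 := der_cl D (X := ∅) (by simp) (CM.alg hz hcm _)
    have k1 : D (jj z) = 0 := der_cl D (X := ∅) (by simp) (jj_cm hz hcm _)
    have l0 : D (jj w) = 0 := by
      have h5 : jj w ∈ M.closure ∅ := by
        have h6 := cl_sub (singleton_subset_iff.mpr (jj_cm hz hcm ∅)) (jj_mem_cl hz hw h)
        exact h6
      exact der_cl D (X := ∅) (by simp) h5
    have l2 : D (deriv (deriv jj) w) = 0 := hD _ rfl
    have kμ : D μ = 0 := der_of_cl D k0 hμc
    have hμ2 : D (μ ^ 2) = 0 := by rw [D.leibniz_pow, kμ, smul_zero, smul_zero]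
    have h2' : D (2⁻¹ : ℂ) = 0 := by
      have := D.map_algebraMap (2⁻¹ : ℚ)
      simpa using this
    rw [h2, zero_mul, zero_mul, add_zero, D.leibniz, D.leibniz, hμ2, l2, h2', k1, l0, map_zero] at e2
    simp only [smul_zero, add_zero, mul_zero, zero_mul, zero_add] at e2
    have e3 : D (deriv jj z) * (deriv (deriv jj) w * μ ^ 2) = 0 := e2.symm
    exact (mul_eq_zero.mp e3).resolve_right (mul_ne_zero h3 (pow_ne_zero 2 hμ))
  exact (jet_cm hz hcm h1).trans (cl_sub (singleton_subset_iff.mpr h4))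

end Pool.Agent.Q280.MD
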