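import Pool.Agent.Q280.MD.Exact

/-!
# More on algebraic independence over a field of complex numbers
-/

set_option autoImplicit false

open Matroid Set Q241.SX Filter Topology

namespace Pool.Agent.Q280.MD

open Pool.Agent.TH21.MS (jj jj_an)
open Pool.Agent.Q280.MS (CM Equivalent equivalent_refl)

theorem indep_congr {ι : Type*} {Y Y' : Set ℂ} (h : Y ⊆ M.closure Y') {w : ι → ℂ}
    (hw : AlgebraicIndependent (IntermediateField.adjoin ℚ Y') w) :
    AlgebraicIndependent (IntermediateField.adjoin ℚ Y) w := by
  by_contra hcon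
  obtain ⟨i, hi⟩ := exists_dep w hcon
  refine notMem_of_indep hw i (cl_sub (union_subset (h.trans (cl_mono subset_union_left)) ?_) hi)
  exact subset_union_right.trans (subset_cl _)

/-- independent families in a set whose closure is large -/
theorem transfer_over {Y X P : Set ℂ} (h : X ⊆ M.closure P) {m : ℕ} (w : Fin m → ℂ) (hw : ∀ k, w k ∈ X)
    (hind : AlgebraicIndependent (IntermediateField.adjoin ℚ Y) w) :
    ∃ w' : Fin m → ℂ, (∀ k, w' k ∈ P) ∧ AlgebraicIndependent (IntermediateField.adjoin ℚ Y) w' := by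
  apply exists_of_le_eRk_MO
  rw [← (MO Y).eRk_closure_eq P]
  have h1 : (MO Y).Indep (range w) := by
    rw [AlgebraicIndependent.matroid_indep_iff]
    exact hind.to_subtype_range
  have h2 := h1.encard_le_eRk_of_subset (X := (MO Y).closure P) (by
    rintro _ ⟨i, rfl⟩
    rw [mem_MO_iff]
    exact cl_mono subset_union_right (h (hw i)))
  refine le_trans ?_ h2
  have h3 : (univ : Set (Fin m)).encard = (m : ℕ∞) := by simp
  rw [← image_univ, hind.injective.encard_image, h3]

/-- a family whose range has full rank is independent -/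
theorem indep_of_rank {m : ℕ} {v : Fin m → ℂ} (h : (m : ℕ∞) ≤ M.eRk (range v)) : AlgebraicIndependent ℚ v := by
  have h1 : (range v).encard ≤ m := by
    rw [← image_univ]
    refine (encard_image_le _ _).trans ?_
    simp
  have hfin : (range v).Finite := finite_range v
  have h2 : M.eRk (range v) = (range v).encard := le_antisymm (M.eRk_le_encard _) (h1.trans h)
  have h3 : M.Indep (range v) := (M.indep_iff_eRk_eq_encard_of_finite hfin).mpr h2
  have h4 : (range v).encard = m := le_antisymm h1 (h.trans (M.eRk_le_encard _))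
  have hinj : Function.Injective v := by
    have h5 : (range v).ncard = m := by
      have : ((range v).ncard : ℕ∞) = (range v).encard := hfin.cast_ncard_eq
      rw [h4] at this
      exact_mod_cast this
    have h6 : (Finset.univ.image v).card = (Finset.univ : Finset (Fin m)).card := by
      classical
      rw [Finset.card_univ, Fintype.card_fin]
      refine Eq.trans ?_ h5
      rw [← Set.ncard_coe_finset]
      congr 1
      ext x
      simp
    have h7 := Finset.card_image_iff.mp h6
    exact fun a b hab => h7 (Finset.mem_coe.mpr (Finset.mem_univ _)) (Finset.mem_coe.mpr (Finset.mem_univ _)) hab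
  rw [AlgebraicIndependent.matroid_indep_iff] at h3
  have h8 : AlgebraicIndependent ℚ (fun x : range v => (x : ℂ)) := h3
  exact h8.comp (rangeFactorization v) (rangeFactorization_injective.mpr hinj)

theorem E4_of_jj {z : ℂ} (hz : 0 < z.im) (h0 : jj z = 0) : Pool.Agent.TH21.MS.E4 z = 0 := by
  have h2 : Pool.Agent.TH21.MS.E4 z ^ 3 - Pool.Agent.TH21.MS.E6 z ^ 2 ≠ 0 :=
    Pool.Agent.TH21.MS.disc_ne ⟨z, hz⟩
  unfold jj at h0
  rw [div_eq_zero_iff] at h0
  rcases h0 with h0 | h0
  · rcases mul_eq_zero.mp h0 with h0 | h0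
    · norm_num at h0
    · exact pow_eq_zero_iff (by norm_num) |>.mp h0
  · exact absurd h0 h2

/-- the numbers attached to a point with `j = 0` are algebraic -/
theorem jet_of_jj {z : ℂ} (hz : 0 < z.im) (h0 : jj z = 0) (X : Set ℂ) : jet z ⊆ M.closure X := by
  have h4 := E4_of_jj hz h0
  obtain ⟨h1, h2, h3⟩ := zeros4 hz h4
  have hc : (0 : ℂ) ∈ M.closure X := by simpa using cl_rat (X := X) 0
  refine jet_sub (CM.alg hz (cm_of_E4 hz h4) X) ?_ ?_ ?_
  · rw [h1]; exact hc
  · rw [h2]; exact hc
  · rw [h3]; exact hc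

/-- the jet of a special point has rank at most one -/
theorem rank_jet_cm {z : ℂ} (hz : 0 < z.im) (h : CM z) : M.eRk (jet z) ≤ 1 := by
  have key : ∃ a, jet z ⊆ M.closure {a} := by
    by_cases hj : jj z = 0
    · exact ⟨0, jet_of_jj hz hj _⟩
    · obtain ⟨u, hu1, hu2, hu3⟩ := exists_near hz hj
      have hcm : CM u := (CM.iff hz hu1 hu2).mp h
      exact ⟨deriv jj u, (jet_step hu1 hu2.symm hu3).trans (cl_sub (jet_cm hu1 hcm hu3))⟩
  obtain ⟨a, ha⟩ := key
  calc M.eRk (jet z) ≤ M.eRk (M.closure {a}) := M.eRk_mono ha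
    _ = M.eRk {a} := M.eRk_closure_eq _
    _ ≤ 1 := M.eRk_singleton_le _

end Pool.Agent.Q280.MD
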