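import Pool.Agent.Q280.MD.SysW
import Pool.Agent.Q280.MD.JD

/-!
# The systems of the points with the values of `j`, `j'`, `j''`
-/

set_option autoImplicit false

open Matroid Set Q241.SX Filter Topology

namespace Pool.Agent.Q280.MD

open Pool.Agent.TH21.MS (jj jj_an E4 E6 E4_eq E6_eq disc_ne)
open Pool.Agent.Q280.MS (CM Equivalent den_ne equivalent_refl exists_point dg)

/-- points equivalent to CM points are CM points -/
theorem CM.of_equivalent {z w : ℂ} (hz : 0 < z.im) (h : CM z) (hw : Equivalent z w) : CM w := by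
  obtain ⟨A, B, C, hA, hAC, heq⟩ := CM_data hz h
  obtain ⟨a, b, c, d, hdet, h1⟩ := exists_int hw.symm
  -- z (c w + d) = a w + b
  refine ⟨A * a ^ 2 + B * a * c + C * c ^ 2, 2 * A * a * b + B * (a * d + b * c) + 2 * C * c * d,
    A * b ^ 2 + B * b * d + C * d ^ 2, ?_, ?_⟩
  · by_contra hcon
    push Not at hcon
    obtain ⟨e1, e2, e3⟩ := hcon
    have h2 : (a * d - b * c) ^ 2 * (B ^ 2 - 4 * A * C) = 0 := by
      have : (a * d - b * c) ^ 2 * (B ^ 2 - 4 * A * C) =
        (2 * A * a * b + B * (a * d + b * c) + 2 * C * c * d) ^ 2 -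
        4 * (A * a ^ 2 + B * a * c + C * c ^ 2) * (A * b ^ 2 + B * b * d + C * d ^ 2) := by ring
      rw [this, e1, e2, e3]
      ring
    have h3 : B ^ 2 - 4 * A * C = 0 := by
      rcases mul_eq_zero.mp h2 with h3 | h3
      · exfalso
        have : 0 < (a * d - b * c) ^ 2 := by positivity
        omega
      · exact h3
    have h4 : (2 * (A : ℂ) * z + B) ^ 2 = 0 := by
      have h5 : ((B : ℂ) ^ 2 - 4 * A * C) = 0 := by exact_mod_cast congrArg (fun n : ℤ => (n : ℂ)) h3
      linear_combination (4 * (A : ℂ)) * heq + h5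
    have h5 : 2 * (A : ℂ) * z + B = 0 := pow_eq_zero_iff (by norm_num) |>.mp h4
    have h6 := congrArg Complex.im h5
    simp at h6
    rcases h6 with h6 | h6
    · exact hA h6
    · exact hz.ne' h6
  · push_cast
    have h7 : ((c : ℂ) * w + d) ^ 2 * ((A : ℂ) * z ^ 2 + B * z + C) = 0 := by rw [heq, mul_zero]
    linear_combination h7 - (A * (z * (c * w + d) + (a * w + b)) + B * (c * w + d)) * h1

theorem CM.iff {z w : ℂ} (hz : 0 < z.im) (hw : 0 < w.im) (h : Equivalent z w) : CM z ↔ CM w :=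
  ⟨fun h1 => CM.of_equivalent hz h1 h, fun h1 => CM.of_equivalent hw h1 h.symm⟩

theorem CM.refl_iff {z : ℂ} : CM (MS.refl z) ↔ CM z := by
  refine ⟨MS.CM.of_refl, fun h => ?_⟩
  apply MS.CM.of_refl
  rwa [MS.refl_refl]

/-- CM points are equivalent to their reflections -/
theorem CM.equiv_refl {z : ℂ} (hz : 0 < z.im) (h : CM z) : Equivalent z (MS.refl z) := by
  obtain ⟨a, b, c, ha, hac, heq⟩ := CM_data hz h
  -- `conj z = - b / a - z`
  have h1 : (a : ℂ) * (z + (starRingEnd ℂ) z) + b = 0 := by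
    have hre := congrArg Complex.re heq
    have him := congrArg Complex.im heq
    simp only [pow_two, Complex.add_re, Complex.add_im, Complex.mul_re, Complex.mul_im, Complex.intCast_re,
      Complex.intCast_im, zero_mul, sub_zero, add_zero, Complex.zero_re, Complex.zero_im] at hre him
    have h2 : 2 * (a : ℝ) * z.re + b = 0 := by
      have : z.im * (2 * a * z.re + b) = 0 := by linear_combination him
      rcases mul_eq_zero.mp this with h | h
      · exact absurd h hz.ne'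
      · exact h
    rw [Complex.add_conj]
    have h3 : (((2 * (a : ℝ) * z.re + b : ℝ)) : ℂ) = 0 := by rw [h2]; norm_num
    push_cast at h3 ⊢
    linear_combination h3
  refine ⟨a, b, 0, a, ?_, ?_⟩
  · have h2 : (0 : ℚ) < (a : ℚ) ^ 2 := by
      have : (a : ℚ) ≠ 0 := by exact_mod_cast ha
      positivity
    linarith
  · unfold MS.refl
    push_cast
    linear_combination -h1

/-- the properties of a set of points which are needed -/
structure Good (p : ℂ → Prop) : Prop where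
  pos : ∀ z, p z → 0 < z.im
  refl : ∀ z, p z → p (MS.refl z)
  cl : ∀ z w, p z → p w → Equivalent z w → jet w ⊆ M.closure (jet z)
  all : ∀ z, 0 < z.im → ¬ CM z → p z

/-- the points with the property `p` -/
abbrev PtP (p : ℂ → Prop) : Type := {z : ℂ // p z}

theorem jet_refl {z : ℂ} (hz : 0 < z.im) : jet (MS.refl z) ⊆ M.closure (cj '' jet z) := by
  refine jet_sub ?_ ?_ ?_ ?_
  · exact cl_neg (subset_cl _ ⟨z, jet0 z, rfl⟩)
  · rw [jj_refl hz]
    exact subset_cl _ ⟨_, jet1 z, rfl⟩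
  · rw [jd_refl hz]
    exact cl_neg (subset_cl _ ⟨_, jet2 z, rfl⟩)
  · rw [jdd_refl hz]
    exact subset_cl _ ⟨_, jet3 z, rfl⟩

open Classical in
/-- the weight of a point -/
noncomputable def wgt (z : ℂ) : ℕ := if CM z then 1 else 3

theorem wgt_cm {z : ℂ} (h : CM z) : wgt z = 1 := if_pos h
theorem wgt_ncm {z : ℂ} (h : ¬ CM z) : wgt z = 3 := if_neg h

theorem wgt_congr {z w : ℂ} (h : CM z ↔ CM w) : wgt z = wgt w := by
  unfold wgt
  by_cases h1 : CM z
  · rw [if_pos h1, if_pos (h.mp h1)]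
  · rw [if_neg h1, if_neg (fun h2 => h1 (h.mpr h2))]

@[reducible] noncomputable def sysD (p : ℂ → Prop) (h : Good p) : SysW where
  X := PtP p
  r := { r := fun a b => Equivalent a.1 b.1
         iseqv := ⟨fun a => equivalent_refl a.1, fun h => h.symm, fun h h' => h.trans h'⟩ }
  S x := jet x.1
  w x := wgt x.1
  fin x := jet_fin x.1
  cl {x y} hxy := h.cl y.1 x.1 y.2 x.2 (MS.Equivalent.symm hxy)
  wr {x y} hxy := wgt_congr (CM.iff (h.pos _ x.2) (h.pos _ y.2) hxy)
  σ x := ⟨MS.refl x.1, h.refl _ x.2⟩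
  σσ x := Subtype.ext (MS.refl_refl x.1)
  σr hxy := MS.Equivalent.refl_map hxy
  σS x := jet_refl (h.pos _ x.2)
  wσ x := wgt_congr CM.refl_iff

section

variable {p : ℂ → Prop} (h : Good p)

theorem sysD_q {x y : PtP p} : (sysD p h).q x = (sysD p h).q y ↔ Equivalent x.1 y.1 :=
  ⟨fun h => Quotient.exact h, fun h => Quotient.sound h⟩

theorem sysD_sup (V : Finset (sysD p h).O) : ∃ x : (sysD p h).X, (sysD p h).q x ∉ V ∧
    SysW.τ ((sysD p h).q x) = (sysD p h).q x ∧ (sysD p h).wt ((sysD p h).q x) = 3 ∧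
    M.eRk ((sysD p h).S x) ≤ ((sysD p h).w x : ℕ) := by
  obtain ⟨x, h1, h2, h3, h4, h5⟩ := exists_point (∑ v ∈ V, dg (Quotient.out v).1)
  refine ⟨⟨x, h.all x h1 h4⟩, fun hV => ?_, ?_, wgt_ncm h4, ?_⟩
  · have h6 : Equivalent (Quotient.out ((sysD p h).q ⟨x, h.all x h1 h4⟩)).1 x :=
      Quotient.exact (Quotient.out_eq ((sysD p h).q ⟨x, h.all x h1 h4⟩))
    have h7 := h6.dg_eq (h.pos _ (Quotient.out ((sysD p h).q ⟨x, h.all x h1 h4⟩)).2) h1
    have h8 := Finset.single_le_sum (f := fun v => dg (Quotient.out v).1) (fun _ _ => Nat.zero_le _) hV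
    omega
  · show (sysD p h).q ((sysD p h).σ ⟨x, h.all x h1 h4⟩) = (sysD p h).q ⟨x, h.all x h1 h4⟩
    refine congrArg (sysD p h).q (Subtype.ext ?_)
    show MS.refl x = x
    apply Complex.ext
    · simp [MS.refl, h2]
    · simp [MS.refl]
  · show M.eRk (jet x) ≤ ((wgt x : ℕ) : ℕ∞)
    rw [wgt_ncm h4]
    have h6 : jet x ⊆ M.closure {jj x, deriv jj x, deriv (deriv jj) x} :=
      jet_sub (cl_alg h3) (subset_cl _ (by simp)) (subset_cl _ (by simp)) (subset_cl _ (by simp))
    calc M.eRk (jet x) ≤ M.eRk (M.closure {jj x, deriv jj x, deriv (deriv jj) x}) := M.eRk_mono h6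
      _ = M.eRk {jj x, deriv jj x, deriv (deriv jj) x} := M.eRk_closure_eq _
      _ ≤ encard {jj x, deriv jj x, deriv (deriv jj) x} := M.eRk_le_encard _
      _ ≤ ((3 : ℕ) : ℕ∞) := by
        refine (encard_insert_le _ _).trans ?_
        refine (add_le_add (encard_insert_le _ _) le_rfl).trans ?_
        rw [encard_singleton]
        norm_num

/-- a relation for the jet of a point over `Y` -/
def RelOver (Y : Set ℂ) (x : ℂ) : Prop := ∃ a ∈ jet x, a ∈ M.closure (Y ∪ (jet x \ {a}))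

theorem RelOver.mono {Y Z : Set ℂ} (hYZ : Y ⊆ M.closure Z) {x : ℂ} (hx : RelOver Y x) : RelOver Z x := by
  obtain ⟨a, h1, h2⟩ := hx
  refine ⟨a, h1, cl_sub (union_subset (hYZ.trans (cl_mono subset_union_left)) ?_) h2⟩
  exact subset_union_right.trans (subset_cl _)

theorem encard_jet_diff {x a : ℂ} (ha : a ∈ jet x) : (jet x \ {a}).encard ≤ 3 := by
  have h1 : (jet x).encard ≤ 4 := by
    unfold jet
    refine (encard_insert_le _ _).trans ?_
    refine (add_le_add (encard_insert_le _ _) le_rfl).trans ?_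
    refine (add_le_add (add_le_add (encard_insert_le _ _) le_rfl) le_rfl).trans ?_
    rw [encard_singleton]
    norm_num
  have h2 := encard_sdiff_singleton_add_one ha
  have h3 : (jet x \ {a}).encard + 1 ≤ 3 + 1 := by
    rw [h2]
    exact h1.trans (by norm_num)
  exact (ENat.add_le_add_iff_right (by simp)).mp h3

/-- the step -/
theorem sysD_step {Y : Set ℂ} {x : (sysD p h).X} (hx : ¬ CM x.1 → RelOver Y x.1) :
    (∃ u : ℂ, 0 < u.im ∧ CM u ∧ deriv jj u ≠ 0 ∧ Equivalent u x.1) ∨ ¬ CM x.1 →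
    M.eRk (Y ∪ (sysD p h).S x) ≤ M.eRk Y + (((sysD p h).w x : ℕ) : ℕ∞) := by
  intro hu
  show M.eRk (Y ∪ jet x.1) ≤ M.eRk Y + ((wgt x.1 : ℕ) : ℕ∞)
  by_cases hcm : CM x.1
  · rw [wgt_cm hcm]
    rcases hu with ⟨u, hu1, hu2, hu3, hu4⟩ | hu
    · have h1 : jet x.1 ⊆ M.closure {deriv jj u} := by
        have h2 := jet_step hu1 hu4 hu3
        exact h2.trans (cl_sub (jet_cm hu1 hu2 hu3))
      calc M.eRk (Y ∪ jet x.1) ≤ M.eRk (M.closure (insert (deriv jj u) Y)) :=
            M.eRk_mono (union_subset ((subset_insert _ _).trans (subset_cl _))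
              (h1.trans (cl_mono (singleton_subset_iff.mpr (mem_insert _ _)))))
        _ = M.eRk (insert (deriv jj u) Y) := M.eRk_closure_eq _
        _ ≤ M.eRk Y + 1 := M.eRk_insert_le_add_one _ _
        _ = _ := by norm_num
    · exact absurd hcm hu
  · rw [wgt_ncm hcm]
    obtain ⟨a, h1, h2⟩ := hx hcm
    have h3 : Y ∪ jet x.1 ⊆ M.closure (Y ∪ (jet x.1 \ {a})) := by
      refine union_subset (subset_union_left.trans (subset_cl _)) ?_
      intro b hb
      by_cases hba : b = a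
      · rw [hba]; exact h2
      · exact subset_cl _ (Or.inr ⟨hb, hba⟩)
    calc M.eRk (Y ∪ jet x.1) ≤ M.eRk (M.closure (Y ∪ (jet x.1 \ {a}))) := M.eRk_mono h3
      _ = M.eRk (Y ∪ (jet x.1 \ {a})) := M.eRk_closure_eq _
      _ ≤ M.eRk Y + M.eRk (jet x.1 \ {a}) := M.eRk_union_le_eRk_add_eRk _ _
      _ ≤ M.eRk Y + 3 := add_le_add le_rfl ((M.eRk_le_encard _).trans (encard_jet_diff h1))
      _ = _ := by norm_num

end

/-! ### The three sets of points -/

theorem goodN : Good fun z => 0 < z.im ∧ ¬ CM z where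
  pos _ h := h.1
  refl z h := ⟨by rw [MS.refl_im]; exact h.1, fun h' => h.2 (CM.refl_iff.mp h')⟩
  cl z w hz hw h := jet_step hz.1 h fun h0 => hz.2 (cm_of_jd hz.1 h0)
  all z h1 h2 := ⟨h1, h2⟩

theorem goodD : Good fun z => 0 < z.im ∧ deriv jj z ≠ 0 where
  pos _ h := h.1
  refl z h := ⟨by rw [MS.refl_im]; exact h.1, by
    rw [jd_refl h.1]
    intro h0
    rw [neg_eq_zero, map_eq_zero] at h0
    exact h.2 h0⟩
  cl z w hz hw h := jet_step hz.1 h hz.2
  all z h1 h2 := ⟨h1, fun h0 => h2 (cm_of_jd h1 h0)⟩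

/-- near every point with `j ≠ 0` there is an equivalent point with `j' ≠ 0` -/
theorem exists_near {z : ℂ} (hz : 0 < z.im) (h : jj z ≠ 0) :
    ∃ u : ℂ, 0 < u.im ∧ Equivalent z u ∧ deriv jj u ≠ 0 := by
  by_cases h0 : deriv jj z = 0
  · have h4 : E4 z ≠ 0 := fun h4 => h (zeros4 hz h4).1
    have h6 : E6 z = 0 := (jd_zero hz h0).resolve_left h4
    have h2 := (zeros6 hz h6).2
    have h3 : HasDerivAt (deriv jj) (deriv (deriv jj) z) z := (jj_an z hz).deriv.differentiableAt.hasDerivAt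
    have h5 : ∀ᶠ u in 𝓝[≠] z, deriv jj u ≠ 0 := h3.eventually_ne h2
    have h7 : Tendsto (fun n : ℕ => z + ((1 : ℂ) / ((n : ℂ) + 1))) atTop (𝓝[≠] z) := by
      apply tendsto_nhdsWithin_of_tendsto_nhds_of_eventually_within
      · have := (tendsto_one_div_add_atTop_nhds_zero_nat (𝕜 := ℂ)).const_add z
        simpa using this
      · refine Eventually.of_forall fun n => ?_
        intro hn
        have h8 : (1 : ℂ) / ((n : ℂ) + 1) = 0 := by
          have : z + (1 : ℂ) / ((n : ℂ) + 1) = z := hn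
          linear_combination this
        have h9 : ((n : ℂ) + 1) ≠ 0 := by exact_mod_cast Nat.succ_ne_zero n
        exact (div_ne_zero one_ne_zero h9) h8
    obtain ⟨n, hn⟩ := (h7.eventually h5).exists
    refine ⟨_, ?_, ?_, hn⟩
    · have : (z + (1 : ℂ) / ((n : ℂ) + 1)).im = z.im := by
        have h8 : (1 : ℂ) / ((n : ℂ) + 1) = ((1 / ((n : ℝ) + 1) : ℝ) : ℂ) := by push_cast; rfl
        rw [h8, Complex.add_im, Complex.ofReal_im, add_zero]
      rw [this]
      exact hz
    · refine ⟨1, 1 / ((n : ℚ) + 1), 0, 1, by norm_num, ?_⟩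
      push_cast
      ring
  · exact ⟨z, hz, equivalent_refl z, h0⟩

theorem jj_ne_of_ncm {z : ℂ} (hz : 0 < z.im) (h : ¬ CM z) : jj z ≠ 0 := by
  intro h0
  apply h
  have h1 : E4 z = 0 := by
    have h2 : E4 z ^ 3 - E6 z ^ 2 ≠ 0 := disc_ne ⟨z, hz⟩
    unfold jj at h0
    rw [div_eq_zero_iff] at h0
    rcases h0 with h0 | h0
    · rcases mul_eq_zero.mp h0 with h0 | h0
      · norm_num at h0
      · exact pow_eq_zero_iff (by norm_num) |>.mp h0
    · exact absurd h0 h2
  exact cm_of_E4 hz h1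

theorem goodJ : Good fun z => 0 < z.im ∧ jj z ≠ 0 where
  pos _ h := h.1
  refl z h := ⟨by rw [MS.refl_im]; exact h.1, by
    rw [jj_refl h.1]
    intro h0
    rw [map_eq_zero] at h0
    exact h.2 h0⟩
  cl z w hz hw h := by
    by_cases h0 : deriv jj z = 0
    · obtain ⟨u, hu1, hu2, hu3⟩ := exists_near hz.1 hz.2
      have h4 : E4 z ≠ 0 := fun h4 => hz.2 (zeros4 hz.1 h4).1
      have h6 : E6 z = 0 := (jd_zero hz.1 h0).resolve_left h4
      have h2 := (zeros6 hz.1 h6).2
      have hcm : CM z := cm_of_jd hz.1 h0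
      have h3 := jet_back hu1 hz.1 (CM.of_equivalent hz.1 hcm hu2) hu2.symm hu3 h0 h2
      have h5 := jet_step hu1 (hu2.symm.trans h) hu3
      exact h5.trans (cl_sub (h3.trans (cl_mono (singleton_subset_iff.mpr (jet3 z)))))
    · exact jet_step hz.1 h h0
  all z h1 h2 := ⟨h1, jj_ne_of_ncm h1 h2⟩

end Pool.Agent.Q280.MD
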