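import Mathlib

/-!
# Supermodular functions on finite sets: the union of the tight sets
-/

set_option autoImplicit false
set_option linter.unusedSectionVars false

open Set

namespace Pool.Agent.Q280.MD

variable {O : Type*} [DecidableEq O] (f : Finset O → ℤ)

/-- all proper subsets have a smaller value -/
def Tight (V : Finset O) : Prop := ∀ X, X ⊂ V → f X < f V

/-- the union of the tight sets -/
def Core : Set O := {v | ∃ T, Tight f T ∧ v ∈ T}

variable {f}

theorem Tight.le {V X : Finset O} (h : Tight f V) (hX : X ⊆ V) : f X ≤ f V := by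
  rcases hX.eq_or_ssubset with h1 | h1
  · rw [h1]
  · exact (h X h1).le

theorem Tight.sub_core {T : Finset O} (h : Tight f T) : (T : Set O) ⊆ Core f := fun v hv => ⟨T, h, hv⟩

theorem tight_empty : Tight f ∅ := fun X hX => absurd hX (Finset.not_ssubset_empty X)

theorem exists_tight (V : Finset O) : ∃ T ⊆ V, Tight f T ∧ ∀ X ⊆ V, f X ≤ f T := by
  classical
  obtain ⟨T₀, hT₀, hmax⟩ := Finset.exists_max_image V.powerset f ⟨∅, Finset.empty_mem_powerset V⟩
  obtain ⟨T, hT, hmin⟩ := Finset.exists_min_image (V.powerset.filter fun T => f T₀ ≤ f T) Finset.card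
    ⟨T₀, Finset.mem_filter.mpr ⟨hT₀, le_rfl⟩⟩
  rw [Finset.mem_filter, Finset.mem_powerset] at hT
  have hTT : ∀ X ⊆ V, f X ≤ f T := fun X hX => (hmax X (Finset.mem_powerset.mpr hX)).trans hT.2
  refine ⟨T, hT.1, ?_, hTT⟩
  intro X hX
  by_contra hcon
  push Not at hcon
  have h1 := hmin X (Finset.mem_filter.mpr ⟨Finset.mem_powerset.mpr (hX.1.trans hT.1), hT.2.trans hcon⟩)
  have h2 := Finset.card_lt_card hX
  omega

variable (hf : ∀ V W, f V + f W ≤ f (V ∩ W) + f (V ∪ W))

include hf

theorem Tight.union {V W : Finset O} (hV : Tight f V) (hW : Tight f W) : Tight f (V ∪ W) := by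
  intro X hX
  -- adding a tight set which is not contained strictly increases
  have key : ∀ {T Y : Finset O}, Tight f T → ¬ T ⊆ Y → f Y < f (T ∪ Y) := by
    intro T Y hT hTY
    have h1 := hf T Y
    have h2 : f (T ∩ Y) < f T := hT _ ⟨Finset.inter_subset_left, fun h => hTY (h.trans Finset.inter_subset_right)⟩
    omega
  have key' : ∀ {T Y : Finset O}, Tight f T → f Y ≤ f (T ∪ Y) := by
    intro T Y hT
    by_cases h : T ⊆ Y
    · rw [Finset.union_eq_right.mpr h]
    · exact (key hT h).le
  have hXV : X ⊆ V ∪ W := hX.1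
  have h3 : W ∪ (V ∪ X) = V ∪ W := by
    ext v
    simp only [Finset.mem_union]
    constructor
    · rintro (h | h | h)
      · exact Or.inr h
      · exact Or.inl h
      · exact Finset.mem_union.mp (hXV h)
    · rintro (h | h)
      · exact Or.inr (Or.inl h)
      · exact Or.inl h
  by_cases h1 : V ⊆ X
  · have h2 : V ∪ X = X := Finset.union_eq_right.mpr h1
    have h4 : ¬ W ⊆ V ∪ X := by
      intro h
      rw [h2] at h
      exact hX.2 (Finset.union_subset h1 h)
    have h5 := key hW h4
    rw [h3, h2] at h5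
    exact h5
  · have h4 := key hV h1
    have h5 := key' (Y := V ∪ X) hW
    rw [h3] at h5
    omega

theorem exists_tight_of_sub_core (F : Finset O) (hF : (F : Set O) ⊆ Core f) :
    ∃ T, Tight f T ∧ F ⊆ T := by
  induction F using Finset.induction_on with
  | empty => exact ⟨∅, tight_empty, le_rfl⟩
  | insert a F _ ih =>
    obtain ⟨T, h1, h2⟩ := ih fun v hv => hF (Finset.mem_coe.mpr (Finset.mem_insert_of_mem hv))
    obtain ⟨T', h3, h4⟩ := hF (Finset.mem_coe.mpr (Finset.mem_insert_self a F))
    exact ⟨T' ∪ T, h3.union hf h1, Finset.insert_subset (Finset.mem_union_left _ h4)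
      (h2.trans Finset.subset_union_right)⟩

theorem le_of_inter_core {T X : Finset O} (hT : Tight f T) (hX : ∀ v ∈ X, v ∈ Core f → v ∈ T) :
    f X ≤ f T := by
  obtain ⟨T', h1, h2, h3⟩ := exists_tight (f := f) X
  have h4 : T' ⊆ T := fun v hv => hX v (h1 hv) (h2.sub_core hv)
  exact (h3 X le_rfl).trans (hT.le h4)

open Classical in
theorem le_inter_core (V : Finset O) : f V ≤ f (V.filter fun v => v ∈ Core f) := by
  obtain ⟨T, h1, h2⟩ := exists_tight_of_sub_core hf (V.filter fun v => v ∈ Core f) (by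
    intro v hv
    exact (Finset.mem_filter.mp hv).2)
  have h3 := hf V T
  have h4 : V ∩ T = V.filter fun v => v ∈ Core f := by
    ext v
    rw [Finset.mem_inter, Finset.mem_filter]
    constructor
    · rintro ⟨h5, h6⟩
      exact ⟨h5, h1.sub_core h6⟩
    · rintro ⟨h5, h6⟩
      exact ⟨h5, h2 (Finset.mem_filter.mpr ⟨h5, h6⟩)⟩
  have h5 : f (V ∪ T) ≤ f T := le_of_inter_core hf h1 fun v hv hc => by
    rcases Finset.mem_union.mp hv with h | h
    · exact h2 (Finset.mem_filter.mpr ⟨h, hc⟩)
    · exact h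
  rw [h4] at h3
  omega

omit hf in
open Classical in
/-- the core is the smallest set with this property -/
theorem core_min {B : Set O} (h : ∀ V : Finset O, f V ≤ f (V.filter fun v => v ∈ B)) : Core f ⊆ B := by
  rintro v ⟨T, hT, hv⟩
  by_contra hvB
  have h1 : (T.filter fun v => v ∈ B) ⊂ T :=
    ⟨Finset.filter_subset _ _, fun h2 => hvB (Finset.mem_filter.mp (h2 hv)).2⟩
  have := hT _ h1
  have := h T
  omega

omit hf in
theorem core_empty_iff : Core f = ∅ ↔ ∀ V, f V ≤ f ∅ := by
  constructor
  · intro h V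
    obtain ⟨T, _, h2, h3⟩ := exists_tight (f := f) V
    have h4 : T = ∅ := by
      rw [Finset.eq_empty_iff_forall_notMem]
      intro v hv
      have : v ∈ Core f := ⟨T, h2, hv⟩
      rw [h] at this
      exact this
    rw [← h4]
    exact h3 V le_rfl
  · intro h
    rw [Set.eq_empty_iff_forall_notMem]
    rintro v ⟨T, hT, hv⟩
    have h1 : (∅ : Finset O) ⊂ T := Finset.ssubset_iff_subset_ne.mpr
      ⟨Finset.empty_subset _, fun h2 => by rw [← h2] at hv; exact absurd hv (Finset.notMem_empty v)⟩
    have := hT _ h1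
    have := h T
    omega

theorem core_finite_iff : (Core f).Finite ↔ ∃ C, ∀ V, f V ≤ C := by
  classical
  constructor
  · intro h
    obtain ⟨T, h1, h2⟩ := exists_tight_of_sub_core hf h.toFinset (by simp)
    exact ⟨f T, fun V => le_of_inter_core hf h1 fun v _ hc => h2 (h.mem_toFinset.mpr hc)⟩
  · rintro ⟨C, hC⟩
    obtain ⟨d, ⟨T, hT, hd⟩, hmax⟩ := Int.exists_greatest_of_bdd
      (P := fun d : ℤ => ∃ T : Finset O, Tight f T ∧ f T = d)
      ⟨C, by rintro z ⟨V, _, rfl⟩; exact hC V⟩ ⟨f ∅, ∅, tight_empty, rfl⟩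
    refine T.finite_toSet.subset ?_
    rintro v ⟨T', hT', hv⟩
    have h1 := hT.union hf hT'
    by_contra hvT
    have h2 : T ⊂ T ∪ T' := ⟨Finset.subset_union_left, fun h => hvT (h (Finset.mem_union_right _ hv))⟩
    have h3 := h1 _ h2
    have h4 := hmax _ ⟨_, h1, rfl⟩
    omega

end Pool.Agent.Q280.MD
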