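import Pool.Agent.Q280.MD.Der
import Pool.Agent.Y226.ZP.Modular

/-!
# Taylor series as a ring homomorphism
-/

set_option autoImplicit false

open Matroid Set Q241.SX Filter Topology

namespace Pool.Agent.Q280.MD

/-- the ring of the functions analytic at `a` -/
def An (a : ℂ) : Subring (ℂ → ℂ) where
  carrier := {f | AnalyticAt ℂ f a}
  mul_mem' := fun hf hg => hf.mul hg
  one_mem' := analyticAt_const
  add_mem' := fun hf hg => hf.add hg
  zero_mem' := analyticAt_const
  neg_mem' := fun hf => hf.neg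

/-- Taylor series -/
noncomputable def tyf (a : ℂ) (f : ℂ → ℂ) : PowerSeries ℂ :=
  PowerSeries.mk fun n => ((n.factorial : ℕ) : ℂ)⁻¹ * iteratedDeriv n f a

theorem coeff_tyf (a : ℂ) (f : ℂ → ℂ) (n : ℕ) :
    PowerSeries.coeff n (tyf a f) = ((n.factorial : ℕ) : ℂ)⁻¹ * iteratedDeriv n f a :=
  PowerSeries.coeff_mk _ _

theorem tyf_mul {a : ℂ} {f g : ℂ → ℂ} (hf : AnalyticAt ℂ f a) (hg : AnalyticAt ℂ g a) :
    tyf a (f * g) = tyf a f * tyf a g := by
  ext n
  rw [coeff_tyf, PowerSeries.coeff_mul, iteratedDeriv_mul hf.contDiffAt hg.contDiffAt,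
    Finset.Nat.sum_antidiagonal_eq_sum_range_succ_mk, Finset.mul_sum]
  refine Finset.sum_congr rfl fun i hi => ?_
  rw [coeff_tyf, coeff_tyf]
  have h1 : i ≤ n := Nat.lt_succ_iff.mp (Finset.mem_range.mp hi)
  have h2 := Nat.choose_mul_factorial_mul_factorial h1
  have h3 : ((n.choose i : ℕ) : ℂ) * (i.factorial : ℕ) * ((n - i).factorial : ℕ) = (n.factorial : ℕ) := by
    exact_mod_cast congrArg (fun k : ℕ => (k : ℂ)) h2
  have h4 : ((n.factorial : ℕ) : ℂ) ≠ 0 := by exact_mod_cast n.factorial_ne_zero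
  have h5 : ((i.factorial : ℕ) : ℂ) ≠ 0 := by exact_mod_cast i.factorial_ne_zero
  have h6 : (((n - i).factorial : ℕ) : ℂ) ≠ 0 := by exact_mod_cast (n - i).factorial_ne_zero
  have h7 : ((n.choose i : ℕ) : ℂ) = (n.factorial : ℕ) * ((i.factorial : ℕ) : ℂ)⁻¹ * (((n - i).factorial : ℕ) : ℂ)⁻¹ := by
    rw [← h3]
    field_simp
  rw [h7]
  field_simp

theorem tyf_add {a : ℂ} {f g : ℂ → ℂ} (hf : AnalyticAt ℂ f a) (hg : AnalyticAt ℂ g a) :
    tyf a (f + g) = tyf a f + tyf a g := by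
  ext n
  rw [coeff_tyf, map_add, coeff_tyf, coeff_tyf, iteratedDeriv_add hf.contDiffAt hg.contDiffAt]
  ring

theorem tyf_const (a c : ℂ) : tyf a (fun _ => c) = PowerSeries.C c := by
  ext n
  rw [coeff_tyf, PowerSeries.coeff_C, iteratedDeriv_const]
  by_cases h : n = 0
  · rw [if_pos h, h]
    simp
  · rw [if_neg h, mul_zero]

/-- Taylor series -/
noncomputable def ty (a : ℂ) : An a →+* PowerSeries ℂ where
  toFun f := tyf a f.1
  map_one' := tyf_const a 1
  map_mul' f g := tyf_mul f.2 g.2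
  map_zero' := (tyf_const a 0).trans (map_zero _)
  map_add' f g := tyf_add f.2 g.2

theorem ty_congr {a : ℂ} {f g : ℂ → ℂ} (h : f =ᶠ[𝓝 a] g) : tyf a f = tyf a g := by
  ext n
  rw [coeff_tyf, coeff_tyf, h.iteratedDeriv_eq]

/-- constants -/
noncomputable def cst (a : ℂ) : ℂ →+* An a where
  toFun c := ⟨fun _ => c, analyticAt_const⟩
  map_one' := rfl
  map_mul' _ _ := rfl
  map_zero' := rfl
  map_add' _ _ := rfl

/-- evaluation -/
def evl (a s : ℂ) : An a →+* ℂ where
  toFun f := f.1 s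
  map_one' := rfl
  map_mul' _ _ := rfl
  map_zero' := rfl
  map_add' _ _ := rfl

open Pool.Agent.Y226 H294ZP Polynomial in
/-- the Taylor series of two functions related by a polynomial with algebraic coefficients -/
theorem taylor_rel (D : Derivation ℚ ℂ ℂ) (P : ℕ → ZZ[X]) (N : ℕ) (hN : P N = 1) {a : ℂ} {f g : ℂ → ℂ}
    (hf : AnalyticAt ℂ f a) (hg : AnalyticAt ℂ g a)
    (h : ∀ᶠ s in 𝓝 a, PsiE ιZ P N (f s) (g s) = 0) :
    PowerSeries.derivative ℂ (tyf a f) * dt D (tyf a g) = dt D (tyf a f) * PowerSeries.derivative ℂ (tyf a g) := by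
  classical
  obtain ⟨ψ, hψ⟩ : ∃ ψ : ZZ →+* PowerSeries ℂ, ψ = (ty a).comp ((cst a).comp ιZ) := ⟨_, rfl⟩
  have h1 : ty a (PsiE ((cst a).comp ιZ) P N (⟨f, hf⟩ : An a) ⟨g, hg⟩) = 0 := by
    have h2 : (PsiE ((cst a).comp ιZ) P N (⟨f, hf⟩ : An a) ⟨g, hg⟩ : An a).1 =ᶠ[𝓝 a] fun _ => 0 := by
      filter_upwards [h] with s hs
      have h3 := map_PsiE ((cst a).comp ιZ) (evl a s) P N (⟨f, hf⟩ : An a) ⟨g, hg⟩
      have h4 : (evl a s).comp ((cst a).comp ιZ) = ιZ := by
        ext x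
        rfl
      rw [h4] at h3
      exact h3.trans hs
    have h5 := ty_congr h2
    rw [tyf_const, map_zero] at h5
    exact h5
  rw [map_PsiE, ← hψ] at h1
  have hty : ∀ (f : ℂ → ℂ) (hf : AnalyticAt ℂ f a), ty a (⟨f, hf⟩ : An a) = tyf a f := fun _ _ => rfl
  rw [hty, hty] at h1
  refine rel_of_root (D := D) (∑ i ∈ Finset.range (N + 1), Polynomial.C ((P i).eval₂ ψ (tyf a f)) * Polynomial.X ^ i)
    ?_ ?_ ?_
  · intro h0
    have h2 := congrArg (fun p => Polynomial.coeff p N) h0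
    simp only [Polynomial.finsetSum_coeff, Polynomial.coeff_C_mul_X_pow, Polynomial.coeff_zero] at h2
    rw [Finset.sum_ite_eq, if_pos (Finset.mem_range.mpr (Nat.lt_succ_self N)), hN] at h2
    simp at h2
  · rw [Polynomial.eval_finsetSum]
    simp only [Polynomial.eval_mul, Polynomial.eval_C, Polynomial.eval_pow, Polynomial.eval_X]
    exact h1
  · intro i
    have hker : ∀ q : ZZ[X], dV D (tyf a f) (q.eval₂ ψ (tyf a f)) = 0 := by
      intro q
      induction q using Polynomial.induction_on' with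
      | add p q hp hq => rw [Polynomial.eval₂_add, map_add, hp, hq, add_zero]
      | monomial n c =>
        rw [Polynomial.eval₂_monomial, Derivation.leibniz, Derivation.leibniz_pow, dV_self]
        have h6 : ψ c = PowerSeries.C (ιZ c) := by
          rw [hψ]
          exact tyf_const a (ιZ c)
        rw [h6, dV_C]
        · simp
        · have h7 : IsIntegral ℤ (ιZ c) := c.2
          have h8 : ιZ c ∈ M.closure ∅ := cl_alg (h7.isAlgebraic.extendScalars (algebraMap ℤ ℚ).injective_int)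
          exact der_cl D (X := ∅) (by simp) h8
    simp only [Polynomial.finsetSum_coeff, Polynomial.coeff_C_mul_X_pow]
    rw [Finset.sum_ite_eq]
    split_ifs
    · exact hker _
    · exact map_zero _

end Pool.Agent.Q280.MD
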